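import Pool.Agent.H37.UM.Stmts

/-! # Modules IZ and IC -/

set_option autoImplicit false

namespace Pool.Agent.H37.UM

open PowerSeries Finset

namespace IZm

theorem log_ge (N : ℕ) (hN : 250 ≤ N) : 5.52 ≤ Real.log N := by
  have h1 : Real.log 250 ≤ Real.log N := Real.log_le_log (by norm_num) (by exact_mod_cast hN)
  have h2 : Real.log 250 = 8 * Real.log 2 + Real.log (125 / 128) := by
    have : (250 : ℝ) = 2 ^ 8 * (125 / 128) := by norm_num
    rw [this, Real.log_mul (by norm_num) (by norm_num), Real.log_pow]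
    push_cast; ring
  have h3 : 1 - (125 / 128 : ℝ)⁻¹ ≤ Real.log (125 / 128) :=
    Real.one_sub_inv_le_log_of_pos (by norm_num)
  have h4 := Real.log_two_gt_d9
  norm_num at h3
  linarith

theorem sN (N : ℕ) (s : ℝ) (hN : 250 ≤ N) (hs : s = Real.log (1 / (1 - 2 / N))) :
    2 ≤ s * N ∧ s * N ≤ 2.0162 := by
  have hNr : (250 : ℝ) ≤ N := by exact_mod_cast hN
  have ht : (0 : ℝ) < 1 - 2 / N := by
    rw [sub_pos, div_lt_one (by linarith)]; linarith
  constructor
  · have h1 : Real.log (1 - 2 / N) ≤ (1 - 2 / N) - 1 := Real.log_le_sub_one_of_pos ht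
    rw [one_div, Real.log_inv] at hs
    have h2 : 2 / N ≤ s := by linarith
    calc (2 : ℝ) = 2 / N * N := by field_simp
      _ ≤ s * N := by gcongr
  · have h1 : s ≤ 1 / (1 - 2 / N) - 1 := by
      rw [hs]; exact Real.log_le_sub_one_of_pos (by positivity)
    have h2 : 1 / (1 - 2 / (N : ℝ)) - 1 = 2 / (N - 2) := by
      have : (N : ℝ) - 2 ≠ 0 := by linarith
      have h3 : (N : ℝ) ≠ 0 := by linarith
      have h4 : 1 - 2 / (N : ℝ) = (N - 2) / N := by field_simp
      rw [h4, one_div, inv_div]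
      field_simp
      ring
    rw [h2] at h1
    have h5 : (0 : ℝ) < N - 2 := by linarith
    have h6 : s * N ≤ 2 / (N - 2) * N := by gcongr
    refine h6.trans ?_
    rw [div_mul_eq_mul_div, div_le_iff₀ h5]
    linarith

theorem b2_le (N : ℕ) : (b2 N : ℝ) ≤ √(N : ℝ) + 6 := by
  unfold b2
  have h1 : 6 * (Nat.sqrt N / 6 + 1) ≤ Nat.sqrt N + 6 := by omega
  have h2 : ((6 * (Nat.sqrt N / 6 + 1) : ℕ) : ℝ) ≤ (Nat.sqrt N : ℝ) + 6 := by exact_mod_cast h1
  have h3 := Real.nat_sqrt_le_real_sqrt (a := N)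
  linarith

theorem b2_pos (N : ℕ) : (0 : ℝ) < (b2 N : ℝ) := by
  unfold b2; positivity

theorem low (hS : SSBStmt) (N : ℕ) (s : ℝ) (hN : 250 ≤ N) (hs : s = Real.log (1 / (1 - 2 / N))) :
    (11 + √(N : ℝ)) * Real.log N + 0.1307 * N + 1.0485 * √(N : ℝ) + 0.1 ≤ A1 N (1 - 2 / N) := by
  have hNr : (250 : ℝ) ≤ N := by exact_mod_cast hN
  have ht : (0 : ℝ) < 1 - 2 / N := by
    rw [sub_pos, div_lt_one (by linarith)]; linarith
  have ht1 : (1 : ℝ) - 2 / N < 1 := by
    have : (0 : ℝ) < 2 / N := by positivity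
    linarith
  obtain ⟨h1, h2⟩ := sN N s hN hs
  have hL := log_ge N hN
  have hSS := hS.2.1 N (1 - 2 / N) (by omega) ht ht1
  rw [← hs] at hSS
  have hlog0 : Real.log (2 / (s * N)) ≤ 0 := by
    apply Real.log_nonpos
    · have : 0 < s * N := by linarith
      positivity
    · rw [div_le_one (by linarith)]; exact h1
  have hl2 := Real.log_two_lt_d9
  have hs2 : s ^ 2 * (N : ℝ) ^ 2 ≤ 4.0651 := by
    have : s ^ 2 * (N : ℝ) ^ 2 = (s * N) ^ 2 := by ring
    rw [this]; nlinarith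
  have hq : s ^ 2 / 12 * (4 / 21 * (N : ℝ) ^ 3 + (N : ℝ) ^ 2) ≤ 4.0651 / 12 * (4 / 21 * N + 1) := by
    have : s ^ 2 / 12 * (4 / 21 * (N : ℝ) ^ 3 + (N : ℝ) ^ 2) =
        (s ^ 2 * (N : ℝ) ^ 2) / 12 * (4 / 21 * N + 1) := by ring
    rw [this]; gcongr
  have hSS2 : SS N (1 - 2 / N) ≤ 1.75769 * N + 0.339 := by
    have h3 : (N : ℝ) * (Real.log (2 / (s * N)) + 1 + Real.log 2) ≤ N * (1.6931471808) := by
      apply mul_le_mul_of_nonneg_left _ (by linarith)
      linarith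
    linarith
  set x := √(N : ℝ) with hx
  have hxx : x ^ 2 = N := Real.sq_sqrt (by linarith)
  have hx0 : 15.81 ≤ x := by
    rw [hx]; apply Real.le_sqrt_of_sq_le; norm_num; linarith
  have hA : A1 N (1 - 2 / N) = (N - 2) * (Real.log (N - 1) / 2) - SS N (1 - 2 / N) - 2.5651 * x := by
    unfold A1
    have : (1 + (1 - 2 / (N : ℝ))) / (1 - (1 - 2 / (N : ℝ))) = N - 1 := by
      have h3 : (N : ℝ) ≠ 0 := by linarith
      field_simp
      ring
    rw [this]
  rw [hA]
  have hlog1 : Real.log N - 1 / (N - 1) ≤ Real.log (N - 1) := by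
    have h3 : Real.log (N / (N - 1)) ≤ N / (N - 1) - 1 :=
      Real.log_le_sub_one_of_pos (by
        have : (0 : ℝ) < N - 1 := by linarith
        positivity)
    rw [Real.log_div (by linarith) (by linarith)] at h3
    have h4 : (N : ℝ) / (N - 1) - 1 = 1 / (N - 1) := by
      have : (N : ℝ) - 1 ≠ 0 := by linarith
      field_simp
      ring
    linarith
  have h5 : ((N : ℝ) - 2) * (Real.log N / 2) - 1 / 2 ≤ (N - 2) * (Real.log (N - 1) / 2) := by
    have h6 : ((N : ℝ) - 2) * (1 / (N - 1)) ≤ 1 := by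
      rw [mul_one_div, div_le_one (by linarith)]; linarith
    have h7 : ((N : ℝ) - 2) * (Real.log N - 1 / (N - 1)) ≤ (N - 2) * Real.log (N - 1) :=
      mul_le_mul_of_nonneg_left hlog1 (by linarith)
    nlinarith
  have h8 : 5.52 * ((N : ℝ) / 2 - 12 - x) ≤ Real.log N * (N / 2 - 12 - x) := by
    apply mul_le_mul_of_nonneg_right hL
    nlinarith
  nlinarith

theorem log3 (N : ℕ) (hN : 250 ≤ N) : Real.log (3 * (N : ℝ) ^ 2) ≤ 1.14 + 2 * Real.log N := by
  have hNr : (250 : ℝ) ≤ N := by exact_mod_cast hN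
  rw [Real.log_mul (by norm_num) (by positivity), Real.log_pow]
  have h1 : Real.log 3 = 2 * Real.log 2 + Real.log (3 / 4) := by
    have : (3 : ℝ) = 2 ^ 2 * (3 / 4) := by norm_num
    rw [this, Real.log_mul (by norm_num) (by norm_num), Real.log_pow]
    norm_num
  have h2 : Real.log (3 / 4) ≤ 3 / 4 - 1 := Real.log_le_sub_one_of_pos (by norm_num)
  have h3 := Real.log_two_lt_d9
  push_cast
  linarith

theorem mid (N : ℕ) (s : ℝ) (hN : 250 ≤ N) (hs : s = Real.log (1 / (1 - 2 / N))) :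
    s ^ 2 * (0.0643 * (N : ℝ) ^ 3 + 0.2 * (N : ℝ) ^ 2) / 2 ≤ 0.1307 * N + 0.40651 := by
  have hNr : (250 : ℝ) ≤ N := by exact_mod_cast hN
  obtain ⟨h1, h2⟩ := sN N s hN hs
  have hs2 : s ^ 2 * (N : ℝ) ^ 2 ≤ 4.0651 := by
    have : s ^ 2 * (N : ℝ) ^ 2 = (s * N) ^ 2 := by ring
    rw [this]; nlinarith
  have : s ^ 2 * (0.0643 * (N : ℝ) ^ 3 + 0.2 * (N : ℝ) ^ 2) / 2 =
      (s ^ 2 * (N : ℝ) ^ 2) * (0.0643 * N + 0.2) / 2 := by ring
  rw [this]
  have h3 : (s ^ 2 * (N : ℝ) ^ 2) * (0.0643 * N + 0.2) ≤ 4.0651 * (0.0643 * N + 0.2) := by gcongr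
  linarith

end IZm

theorem IZ_thm (hS : SSBStmt) : IZStmt := by
  intro N s hN hs
  refine le_trans ?_ (IZm.low hS N s hN hs)
  have hNr : (250 : ℝ) ≤ N := by exact_mod_cast hN
  have h3 := IZm.log3 N hN
  have hm := IZm.mid N s hN hs
  have hL := IZm.log_ge N hN
  obtain ⟨h1, h2⟩ := IZm.sN N s hN hs
  have hx0 : 0 < √(N : ℝ) := Real.sqrt_pos.2 (by linarith)
  have hb : (b2 N : ℝ) * Real.log N ≤ (√(N : ℝ) + 6) * Real.log N :=
    mul_le_mul_of_nonneg_right (IZm.b2_le N) (by linarith)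
  have hB : 2 * B0 N * s ≤ 1.0485 * √(N : ℝ) := by
    unfold B0
    have : 2 * (0.26 * (N : ℝ) * √(N : ℝ)) * s = 0.52 * (s * N) * √(N : ℝ) := by ring
    rw [this]
    nlinarith
  have hlB : 2 * Real.log (B0 N) ≤ 3 * Real.log N - 1.48 := by
    unfold B0
    rw [Real.log_mul (by positivity) hx0.ne', Real.log_mul (by norm_num) (by linarith),
      Real.log_sqrt (by linarith)]
    have : Real.log 0.26 ≤ 0.26 - 1 := Real.log_le_sub_one_of_pos (by norm_num)
    linarith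
  linarith

theorem IC_thm (hS : SSBStmt) : ICStmt := by
  intro N s hN hs
  refine le_trans ?_ (IZm.low hS N s hN hs)
  have hNr : (250 : ℝ) ≤ N := by exact_mod_cast hN
  have h3 := IZm.log3 N hN
  have hm := IZm.mid N s hN hs
  have hL := IZm.log_ge N hN
  have hx0 : 0 < √(N : ℝ) := Real.sqrt_pos.2 (by linarith)
  have hx1 : 15.81 ≤ √(N : ℝ) := by
    apply Real.le_sqrt_of_sq_le; norm_num; linarith
  have hb : (b2 N : ℝ) * Real.log N ≤ (√(N : ℝ) + 6) * Real.log N :=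
    mul_le_mul_of_nonneg_right (IZm.b2_le N) (by linarith)
  have hbp := IZm.b2_pos N
  have h200 : Real.log 200 ≤ 5.33 := by
    have h1 : Real.log 200 = 8 * Real.log 2 + Real.log (200 / 256) := by
      have : (200 : ℝ) = 2 ^ 8 * (200 / 256) := by norm_num
      rw [this, Real.log_mul (by norm_num) (by norm_num), Real.log_pow]
      norm_num
    have h2 : Real.log (200 / 256) ≤ 200 / 256 - 1 := Real.log_le_sub_one_of_pos (by norm_num)
    have h3 := Real.log_two_lt_d9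
    norm_num at h2
    linarith
  have hlb : Real.log (b2 N) ≤ Real.log N / 2 + 0.38 := by
    have h4 : Real.log (b2 N) ≤ Real.log (√(N : ℝ) * (1 + 6 / √(N : ℝ))) := by
      apply Real.log_le_log hbp
      have : √(N : ℝ) * (1 + 6 / √(N : ℝ)) = √(N : ℝ) + 6 := by field_simp
      rw [this]; exact IZm.b2_le N
    rw [Real.log_mul hx0.ne' (by positivity), Real.log_sqrt (by linarith)] at h4
    have h5 : Real.log (1 + 6 / √(N : ℝ)) ≤ (1 + 6 / √(N : ℝ)) - 1 :=
      Real.log_le_sub_one_of_pos (by positivity)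
    have h6 : 6 / √(N : ℝ) ≤ 0.38 := by
      rw [div_le_iff₀ hx0]; linarith
    linarith
  have hl : Real.log (200 * b2 N * N) ≤ 5.71 + 1.5 * Real.log N := by
    rw [Real.log_mul (by positivity) (by linarith), Real.log_mul (by norm_num) hbp.ne']
    linarith
  nlinarith

end Pool.Agent.H37.UM
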