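import Pool.Agent.H37.UM.Stmts
import Pool.Agent.H37.UM.Tab

/-! # Module LTAB -/

set_option autoImplicit false

namespace Pool.Agent.H37.UM

open PowerSeries Finset

namespace LT

/-- scale -/
def S : ℕ := 2 ^ 160

def ccF (n : ℕ) : ℕ → ℕ → ℕ
  | 0, _ => 0
  | f + 1, i => cond (Nat.ble i n) (ccF n f (2 * i) + 1) 0

def pm (A : ℕ) : ℕ → ℕ → ℕ
  | 0, acc => acc
  | c + 1, acc => pm A c (acc * A / S + 1)

def loop (R Q Nb G : ℕ) : ℕ → ℕ → ℕ → ℕ → ℕ → Bool
  | 0, _, _, _, acc => Nat.ble acc (G * S)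
  | f + 1, i, Pr, Pq, acc =>
    (fun Pr' Pq' => cond (Nat.ble (Pr' + Pq' + 1) S)
      ((fun acc' => loop R Q Nb G f (i + 1) Pr' Pq'
        (acc' * (S + (Pq' * S / (S - Pr' - Pq') + 1)) / S + 1))
        (pm (S + Pr') (ccF Nb 12 (i + 1)) acc)) false)
      (Pr * R / 1000 + 1) (Pq * Q / 1000 + 1)

def chk (e : ℕ × ℕ × ℕ × ℕ × ℕ) : Bool :=
  Nat.ble (e.2.1 + 1) 4096 && (Nat.ble 1 e.2.1 && (Nat.ble (e.2.2.1 + 1) 1000 && (Nat.ble (e.2.2.2.1 + 1) 1000 &&
    loop e.2.2.1 e.2.2.2.1 e.2.1 e.2.2.2.2 (e.2.1 - 1) 1 (S * e.2.2.1 / 1000 + 1)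
      (S * e.2.2.2.1 / 1000 + 1)
      (pm (S + (S * e.2.2.1 / 1000 + 1)) (ccF e.2.1 12 1) S))))

end LT

set_option maxRecDepth 100000 in
theorem LTtest : (l1tab ++ l2tab).all LT.chk = true := by decide +kernel

namespace LT

theorem S_pos : (0 : ℝ) < (S : ℝ) := by unfold S; positivity

theorem ccF_ge (n : ℕ) : ∀ f i, 1 ≤ i → n < 2 ^ f * i → cc n i ≤ ccF n f i := by
  intro f
  induction f with
  | zero =>
    intro i hi hn
    unfold cc
    rw [if_pos (Or.inr (by simpa using hn))]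
    exact Nat.zero_le _
  | succ f ih =>
    intro i hi hn
    by_cases h : i ≤ n
    · have e : ccF n (f + 1) i = ccF n f (2 * i) + 1 := by
        simp only [ccF]
        have : Nat.ble i n = true := Nat.ble_eq_true_of_le h
        rw [this]; rfl
      rw [e]
      have h1 := ih (2 * i) (by omega) (by rw [pow_succ] at hn; nlinarith)
      have h2 : cc n i ≤ cc n (2 * i) + 1 := by
        unfold cc
        rw [if_neg (by push Not; exact ⟨by omega, by omega⟩)]
        by_cases h3 : n < 2 * i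
        · rw [if_pos (Or.inr h3)]
          have : Nat.log 2 (n / i) = 0 := by
            rw [Nat.log_eq_zero_iff]
            left
            exact (Nat.div_lt_iff_lt_mul (by omega)).2 (by omega)
          omega
        · rw [if_neg (by push Not; exact ⟨by omega, by omega⟩)]
          have h4 : n / (2 * i) = n / i / 2 := by rw [Nat.div_div_eq_div_mul, mul_comm]
          rw [h4, Nat.log_div_base]
          omega
      omega
    · unfold cc
      rw [if_pos (Or.inr (by omega))]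
      exact Nat.zero_le _

theorem div_ge (a b : ℕ) (hb : 0 < b) : (a : ℝ) / b ≤ ((a / b + 1 : ℕ) : ℝ) := by
  rw [div_le_iff₀ (by exact_mod_cast hb)]
  have := Nat.lt_div_mul_add (a := a) hb
  have h2 : a ≤ (a / b + 1) * b := by
    rw [add_mul, one_mul]; omega
  exact_mod_cast h2

theorem pm_ge (A : ℕ) (x : ℝ) (hx : 0 ≤ x) (hA : x ≤ (A : ℝ) / S) :
    ∀ (c acc : ℕ) (v : ℝ), 0 ≤ v → v ≤ (acc : ℝ) / S → v * x ^ c ≤ (pm A c acc : ℝ) / S := by
  intro c
  induction c with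
  | zero => intro acc v _ hv; simpa [pm] using hv
  | succ c ih =>
    intro acc v hv0 hv
    have h1 : v * x ≤ ((acc * A / S + 1 : ℕ) : ℝ) / S := by
      have h2 := div_ge (acc * A) S (by unfold S; positivity)
      calc v * x ≤ ((acc : ℝ) / S) * ((A : ℝ) / S) := by gcongr
        _ = (((acc * A : ℕ) : ℝ) / S) / S := by push_cast; ring
        _ ≤ _ := by gcongr
    have h3 := ih (acc * A / S + 1) (v * x) (by positivity) h1
    calc v * x ^ (c + 1) = v * x * x ^ c := by ring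
      _ ≤ _ := h3

/-- the partial value -/
noncomputable def V (r q : ℝ) (Nb i : ℕ) : ℝ :=
  (∏ k ∈ Icc 1 i, (1 + r ^ k) ^ cc Nb k) * ∏ k ∈ Icc 2 i, (1 - q ^ k / (1 - r ^ k))⁻¹

theorem loop_sound (R Q Nb G : ℕ) (r q : ℝ) (hr : r = (R : ℝ) / 1000) (hq : q = (Q : ℝ) / 1000)
    (hR : R < 1000) (hQ : Q < 1000) (hN : Nb < 4096) :
    ∀ (f i Pr Pq acc : ℕ), loop R Q Nb G f i Pr Pq acc = true → 1 ≤ i → i + f = Nb →
      r ^ i ≤ (Pr : ℝ) / S → q ^ i ≤ (Pq : ℝ) / S → 0 < V r q Nb i → V r q Nb i ≤ (acc : ℝ) / S →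
      ∀ j, i ≤ j → j ≤ Nb → V r q Nb j ≤ G := by
  have hS := S_pos
  have hr0 : 0 ≤ r := by rw [hr]; positivity
  have hq0 : 0 ≤ q := by rw [hq]; positivity
  have hr1 : r < 1 := by
    rw [hr, div_lt_one (by norm_num)]; exact_mod_cast hR
  intro f
  induction f with
  | zero =>
    intro i Pr Pq acc hl hi hif _ _ _ hV j hj1 hj2
    have : j = i := by omega
    subst this
    simp only [loop, Nat.ble_eq] at hl
    refine hV.trans ?_
    rw [div_le_iff₀ hS]
    exact_mod_cast hl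
  | succ f ih =>
    intro i Pr Pq acc hl hi hif hPr hPq hV0 hV
    simp only [loop] at hl
    set Pr' := Pr * R / 1000 + 1 with hPr'
    set Pq' := Pq * Q / 1000 + 1 with hPq'
    set c := ccF Nb 12 (i + 1) with hc
    set acc' := pm (S + Pr') c acc with hacc'
    have hlt : Pr' + Pq' + 1 ≤ S := by
      by_contra hh
      have : Nat.ble (Pr' + Pq' + 1) S = false := by
        rw [← Bool.not_eq_true, Nat.ble_eq]; exact hh
      rw [this] at hl
      simp at hl
    have hb : Nat.ble (Pr' + Pq' + 1) S = true := Nat.ble_eq_true_of_le hlt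
    rw [hb] at hl
    simp only [cond_true] at hl
    -- new powers
    have p1 : r ^ (i + 1) ≤ (Pr' : ℝ) / S := by
      have h2 := div_ge (Pr * R) 1000 (by norm_num)
      calc r ^ (i + 1) = r ^ i * r := by ring
        _ ≤ ((Pr : ℝ) / S) * r := by gcongr
        _ = (((Pr * R : ℕ) : ℝ) / (1000 : ℕ)) / S := by rw [hr]; push_cast; ring
        _ ≤ _ := by rw [hPr']; gcongr
    have p2 : q ^ (i + 1) ≤ (Pq' : ℝ) / S := by
      have h2 := div_ge (Pq * Q) 1000 (by norm_num)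
      calc q ^ (i + 1) = q ^ i * q := by ring
        _ ≤ ((Pq : ℝ) / S) * q := by gcongr
        _ = (((Pq * Q : ℕ) : ℝ) / (1000 : ℕ)) / S := by rw [hq]; push_cast; ring
        _ ≤ _ := by rw [hPq']; gcongr
    have hx0 : 0 ≤ r ^ (i + 1) := by positivity
    have hy0 : 0 ≤ q ^ (i + 1) := by positivity
    have hlt' : (Pr' : ℝ) + Pq' + 1 ≤ S := by exact_mod_cast hlt
    have hD : 0 < (S : ℝ) - Pr' - Pq' := by linarith
    have hxy : r ^ (i + 1) + q ^ (i + 1) < 1 := by
      have : (Pr' : ℝ) / S + Pq' / S < 1 := by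
        rw [← add_div, div_lt_one hS]; linarith
      linarith
    have hx1 : 0 < 1 - r ^ (i + 1) := by linarith
    -- the factor B
    have hfac : (1 - q ^ (i + 1) / (1 - r ^ (i + 1)))⁻¹ =
        1 + q ^ (i + 1) / (1 - r ^ (i + 1) - q ^ (i + 1)) := by
      have h3 : 1 - r ^ (i + 1) - q ^ (i + 1) ≠ 0 := by
        have : 0 < 1 - r ^ (i + 1) - q ^ (i + 1) := by linarith
        exact this.ne'
      have h4 : 1 - q ^ (i + 1) / (1 - r ^ (i + 1)) =
          (1 - r ^ (i + 1) - q ^ (i + 1)) / (1 - r ^ (i + 1)) := by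
        field_simp
      rw [h4, inv_div]
      field_simp
      ring
    have hB : (1 - q ^ (i + 1) / (1 - r ^ (i + 1)))⁻¹ ≤
        ((S + (Pq' * S / (S - Pr' - Pq') + 1) : ℕ) : ℝ) / S := by
      rw [hfac]
      have h5 := div_ge (Pq' * S) (S - Pr' - Pq') (by omega)
      have h6 : ((S - Pr' - Pq' : ℕ) : ℝ) = (S : ℝ) - Pr' - Pq' := by
        rw [Nat.cast_sub (by omega), Nat.cast_sub (by omega)]
      rw [h6] at h5
      have h7 : q ^ (i + 1) / (1 - r ^ (i + 1) - q ^ (i + 1)) ≤ (Pq' : ℝ) / (S - Pr' - Pq') := by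
        have h8 : 0 < 1 - r ^ (i + 1) - q ^ (i + 1) := by linarith
        calc q ^ (i + 1) / (1 - r ^ (i + 1) - q ^ (i + 1))
            ≤ ((Pq' : ℝ) / S) / (1 - (Pr' : ℝ) / S - (Pq' : ℝ) / S) := by
              have h9 : 0 < 1 - (Pr' : ℝ) / S - (Pq' : ℝ) / S := by
                have : 1 - (Pr' : ℝ) / S - (Pq' : ℝ) / S = ((S : ℝ) - Pr' - Pq') / S := by
                  field_simp
                rw [this]; positivity
              gcongr
          _ = _ := by
              have : 1 - (Pr' : ℝ) / S - (Pq' : ℝ) / S = ((S : ℝ) - Pr' - Pq') / S := by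
                field_simp
              rw [this, div_div_div_cancel_right₀ hS.ne']
      have h10 : (Pq' : ℝ) / (S - Pr' - Pq') = (((Pq' * S : ℕ) : ℝ) / (S - Pr' - Pq')) / S := by
        push_cast; field_simp
      have h11 : ((S + (Pq' * S / (S - Pr' - Pq') + 1) : ℕ) : ℝ) / S =
          1 + ((Pq' * S / (S - Pr' - Pq') + 1 : ℕ) : ℝ) / S := by
        rw [Nat.cast_add, add_div, div_self hS.ne']
      rw [h11]
      rw [h10] at h7
      have h12 : (((Pq' * S : ℕ) : ℝ) / (S - Pr' - Pq')) / S ≤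
          ((Pq' * S / (S - Pr' - Pq') + 1 : ℕ) : ℝ) / S := by gcongr
      linarith
    have hB1 : 1 ≤ (1 - q ^ (i + 1) / (1 - r ^ (i + 1)))⁻¹ := by
      rw [hfac]
      have h8 : 0 < 1 - r ^ (i + 1) - q ^ (i + 1) := by linarith
      have : 0 ≤ q ^ (i + 1) / (1 - r ^ (i + 1) - q ^ (i + 1)) := by positivity
      linarith
    -- V (i+1)
    have hVs : V r q Nb (i + 1) = V r q Nb i * (1 + r ^ (i + 1)) ^ cc Nb (i + 1) *
        (1 - q ^ (i + 1) / (1 - r ^ (i + 1)))⁻¹ := by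
      unfold V
      rw [Finset.prod_Icc_succ_top (by omega), Finset.prod_Icc_succ_top (by omega)]
      ring
    have hone : 1 ≤ (1 + r ^ (i + 1)) ^ cc Nb (i + 1) := one_le_pow₀ (by linarith)
    have hmono : V r q Nb i ≤ V r q Nb (i + 1) := by
      rw [hVs]
      calc V r q Nb i = V r q Nb i * 1 * 1 := by ring
        _ ≤ _ := by gcongr
    have hV1 : V r q Nb i * (1 + r ^ (i + 1)) ^ cc Nb (i + 1) ≤ (acc' : ℝ) / S := by
      have h13 : V r q Nb i * (1 + r ^ (i + 1)) ^ cc Nb (i + 1) ≤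
          V r q Nb i * (1 + r ^ (i + 1)) ^ c := by
        have h14 : cc Nb (i + 1) ≤ c := ccF_ge Nb 12 (i + 1) (by omega) (by omega)
        have h15 : (1 + r ^ (i + 1)) ^ cc Nb (i + 1) ≤ (1 + r ^ (i + 1)) ^ c :=
          pow_le_pow_right₀ (by linarith) h14
        gcongr
      refine h13.trans ?_
      rw [hacc']
      apply pm_ge _ _ (by linarith) _ c acc _ hV0.le hV
      rw [Nat.cast_add, add_div, div_self hS.ne']
      linarith
    have hV2 : V r q Nb (i + 1) ≤
        ((acc' * (S + (Pq' * S / (S - Pr' - Pq') + 1)) / S + 1 : ℕ) : ℝ) / S := by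
      rw [hVs]
      have h2 := div_ge (acc' * (S + (Pq' * S / (S - Pr' - Pq') + 1))) S
        (by unfold S; positivity)
      calc V r q Nb i * (1 + r ^ (i + 1)) ^ cc Nb (i + 1) *
            (1 - q ^ (i + 1) / (1 - r ^ (i + 1)))⁻¹
          ≤ ((acc' : ℝ) / S) * (((S + (Pq' * S / (S - Pr' - Pq') + 1) : ℕ) : ℝ) / S) := by
            gcongr
        _ = (((acc' * (S + (Pq' * S / (S - Pr' - Pq') + 1)) : ℕ) : ℝ) / S) / S := by
            push_cast; ring
        _ ≤ _ := by gcongr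
    have hall := ih (i + 1) Pr' Pq' _ hl (by omega) (by omega) p1 p2 (lt_of_lt_of_le hV0 hmono) hV2
    intro j hj1 hj2
    by_cases hji : j = i
    · subst hji
      exact hmono.trans (hall (j + 1) le_rfl (by omega))
    · exact hall j (by omega) hj2

theorem chk_sound (e : ℕ × ℕ × ℕ × ℕ × ℕ) (h : chk e = true) (j : ℕ) (hj : j ≤ e.2.1) :
    (∏ i ∈ Icc 1 j, (1 + ((e.2.2.1 : ℝ) / 1000) ^ i) ^ cc j i) *
      ∏ i ∈ Icc 2 j, (1 - ((e.2.2.2.1 : ℝ) / 1000) ^ i / (1 - ((e.2.2.1 : ℝ) / 1000) ^ i))⁻¹ ≤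
      (e.2.2.2.2 : ℝ) := by
  obtain ⟨Na, Nb, R, Q, G⟩ := e
  simp only [chk, Bool.and_eq_true, Nat.ble_eq] at h
  simp only at hj ⊢
  obtain ⟨h1, h2, h3, h4, h5⟩ := h
  have hS := S_pos
  set r : ℝ := (R : ℝ) / 1000 with hr
  set q : ℝ := (Q : ℝ) / 1000 with hq
  have hr0 : 0 ≤ r := by rw [hr]; positivity
  have p1 : r ^ 1 ≤ ((S * R / 1000 + 1 : ℕ) : ℝ) / S := by
    have h2 := div_ge (S * R) 1000 (by norm_num)
    calc r ^ 1 = (((S * R : ℕ) : ℝ) / (1000 : ℕ)) / S := by rw [hr]; push_cast; field_simp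
      _ ≤ _ := by gcongr
  have p2 : q ^ 1 ≤ ((S * Q / 1000 + 1 : ℕ) : ℝ) / S := by
    have h2 := div_ge (S * Q) 1000 (by norm_num)
    calc q ^ 1 = (((S * Q : ℕ) : ℝ) / (1000 : ℕ)) / S := by rw [hq]; push_cast; field_simp
      _ ≤ _ := by gcongr
  have hV : V r q Nb 1 = (1 + r) ^ cc Nb 1 := by
    unfold V; simp
  have hV0 : 0 < V r q Nb 1 := by rw [hV]; positivity
  have hV1 : V r q Nb 1 ≤ (pm (S + (S * R / 1000 + 1)) (ccF Nb 12 1) S : ℝ) / S := by
    rw [hV]
    have h6 : cc Nb 1 ≤ ccF Nb 12 1 := ccF_ge Nb 12 1 le_rfl (by omega)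
    have h7 : (1 + r) ^ cc Nb 1 ≤ 1 * (1 + r) ^ ccF Nb 12 1 := by
      rw [one_mul]; exact pow_le_pow_right₀ (by linarith) h6
    refine h7.trans (pm_ge _ _ (by linarith) ?_ _ _ _ zero_le_one ?_)
    · rw [Nat.cast_add, add_div, div_self hS.ne']
      rw [pow_one] at p1
      linarith
    · rw [div_self hS.ne']
  have key := loop_sound R Q Nb G r q hr hq (by omega) (by omega) (by omega) (Nb - 1) 1 _ _ _ h5
    le_rfl (by omega) p1 p2 hV0 hV1
  have hall : ∀ j, 1 ≤ j → j ≤ Nb → V r q Nb j ≤ G := key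
  have h1le : ∀ j, j ≤ Nb → (∏ i ∈ Icc 1 j, (1 + r ^ i) ^ cc j i) ≤
      ∏ i ∈ Icc 1 j, (1 + r ^ i) ^ cc Nb i := by
    intro j hj
    apply Finset.prod_le_prod
    · intro i _; positivity
    · intro i hi
      apply pow_le_pow_right₀
      · have : 0 ≤ r ^ i := by positivity
        linarith
      · unfold cc
        rw [Finset.mem_Icc] at hi
        rw [if_neg (by push Not; exact ⟨by omega, by omega⟩),
          if_neg (by push Not; exact ⟨by omega, by omega⟩)]
        have := Nat.log_mono_right (b := 2) (Nat.div_le_div_right (c := i) hj)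
        omega
  by_cases hj0 : j = 0
  · subst hj0
    have h8 := hall 1 le_rfl h2
    rw [hV] at h8
    have h9 : 1 ≤ (1 + r) ^ cc Nb 1 := one_le_pow₀ (by linarith)
    have h10 : (1 : ℝ) ≤ (G : ℝ) := h9.trans h8
    simpa using h10
  · -- the second product is nonnegative, from V > 0
    have h8 := hall j (by omega) hj
    by_cases hneg : 0 ≤ ∏ i ∈ Icc 2 j, (1 - q ^ i / (1 - r ^ i))⁻¹
    · refine le_trans ?_ h8
      unfold V
      exact mul_le_mul_of_nonneg_right (h1le j hj) hneg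
    · have hpos : 0 ≤ ∏ i ∈ Icc 1 j, (1 + r ^ i) ^ cc j i := by
        apply Finset.prod_nonneg; intro i _; positivity
      have : (0 : ℝ) ≤ G := by positivity
      push Not at hneg
      nlinarith

end LT

theorem LTAB_thm : LTabStmt (l1tab ++ l2tab) := by
  intro e he j hj
  exact LT.chk_sound e (List.all_eq_true.1 LTtest e he) j hj

end Pool.Agent.H37.UM
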