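import Pool.Agent.H65.UM.LLcommon
import Pool.Agent.H65.UM.LTAB

/-! # Module LL1 -/

set_option autoImplicit false

namespace Pool.Agent.H37.UM

open PowerSeries Finset

namespace LL1m

/-- one check -/
def one (ents : List (ℕ × ℕ × ℕ)) (s k : ℕ) : Bool :=
  Nat.ble 3 s && ents.any (fun e =>
    Nat.ble (e.1 * 1000 ^ k * k.factorial) (2 * (s - 1).ascFactorial k * (e.2.1 * e.2.2 ^ k)))

/-- loop over `M`; `c` counts the `m ≤ Na` with `op m ≤ M` -/
def loop (Na : ℕ) (ents : List (ℕ × ℕ × ℕ)) : ℕ → ℕ → ℕ → Bool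
  | 0, _, _ => true
  | f + 1, M, c =>
    (fun c' => (one ents (Na - c') (2 * M - 1) && one ents (Na - c') (2 * M)) &&
      loop Na ents f (M + 1) c') (c + cond (Nat.beq (M % 2) 1) (LT.ccF Na 12 M) 0)

/-- initial count -/
def cnt (Na : ℕ) : ℕ → ℕ
  | 0 => 0
  | M + 1 => cnt Na M + cond (Nat.beq ((M + 1) % 2) 1) (LT.ccF Na 12 (M + 1)) 0

def ent (Nb : ℕ) (e : ℕ × ℕ × ℕ) : ℕ × ℕ × ℕ :=
  (LLc.lhs Nb e.1 e.2.1 e.2.2, LLc.rhs Nb e.1 e.2.1, e.1)

def blk (Na Nb : ℕ) (l : List (ℕ × ℕ × ℕ)) : Bool :=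
  one (l.map (ent Nb)) (Na - cnt Na 24) 48 && loop Na (l.map (ent Nb)) 126 25 (cnt Na 24)


theorem one_sound (Nb : ℕ) (l : List (ℕ × ℕ × ℕ)) (s k : ℕ)
    (h : one (l.map (ent Nb)) s k = true) :
    3 ≤ s ∧ ∃ e ∈ l, LLc.lhs Nb e.1 e.2.1 e.2.2 * 1000 ^ k ≤
      2 * (s - 2 + k).choose k * (LLc.rhs Nb e.1 e.2.1 * e.1 ^ k) := by
  simp only [one, Bool.and_eq_true, Nat.ble_eq, List.any_eq_true] at h
  obtain ⟨h3, e', he', h4⟩ := h
  refine ⟨h3, ?_⟩
  rw [List.mem_map] at he'
  obtain ⟨e, he, rfl⟩ := he'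
  refine ⟨e, he, ?_⟩
  simp only [ent] at h4
  have h5 : (s - 1).ascFactorial k = k.factorial * (s - 2 + k).choose k := by
    have : s - 1 = (s - 2) + 1 := by omega
    rw [this, Nat.ascFactorial_eq_factorial_mul_choose]
  rw [h5] at h4
  have h6 : LLc.lhs Nb e.1 e.2.1 e.2.2 * 1000 ^ k * k.factorial ≤
      (2 * (s - 2 + k).choose k * (LLc.rhs Nb e.1 e.2.1 * e.1 ^ k)) * k.factorial := by
    calc _ ≤ _ := h4
      _ = _ := by ring
  exact Nat.le_of_mul_le_mul_right h6 (Nat.factorial_pos k)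

theorem loop_sound (Na : ℕ) (ents : List (ℕ × ℕ × ℕ)) :
    ∀ f M, loop Na ents f (M + 1) (cnt Na M) = true → ∀ M', M + 1 ≤ M' → M' < M + 1 + f →
      one ents (Na - cnt Na M') (2 * M' - 1) = true ∧ one ents (Na - cnt Na M') (2 * M') = true := by
  intro f
  induction f with
  | zero => intro M _ M' h1 h2; omega
  | succ f ih =>
    intro M h M' h1 h2
    simp only [loop, Bool.and_eq_true] at h
    have e1 : cnt Na M + cond (Nat.beq ((M + 1) % 2) 1) (LT.ccF Na 12 (M + 1)) 0 =
        cnt Na (M + 1) := rfl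
    rw [e1] at h
    by_cases hM : M' = M + 1
    · subst hM; exact h.1
    · exact ih (M + 1) h.2 M' (by omega) (by omega)

theorem op_mul (m : ℕ) : m = 2 ^ padicValNat 2 m * op m := by
  unfold op
  exact (Nat.mul_div_cancel' pow_padicValNat_dvd).symm

theorem card_eq (Na i : ℕ) (hi : 1 ≤ i) (hN : Na < 4096) :
    ((Icc 1 Na).filter (fun m => op m = i)).card ≤
      cond (Nat.beq (i % 2) 1) (LT.ccF Na 12 i) 0 := by
  by_cases hodd : i % 2 = 1
  · have e1 : cond (Nat.beq (i % 2) 1) (LT.ccF Na 12 i) 0 = LT.ccF Na 12 i := by rw [hodd]; rfl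
    rw [e1]
    refine le_trans ?_ (LT.ccF_ge Na 12 i hi (by omega))
    have h1 : ((Icc 1 Na).filter (fun m => op m = i)).card ≤ (range (cc Na i)).card := by
      apply Finset.card_le_card_of_injOn (fun m => padicValNat 2 m)
      · intro m hm
        rw [Finset.mem_coe, Finset.mem_filter, Finset.mem_Icc] at hm
        rw [Finset.mem_coe, Finset.mem_range]
        have h2 := op_mul m
        rw [hm.2] at h2
        have h3 : i ≤ Na := by
          have : 1 ≤ 2 ^ padicValNat 2 m := Nat.one_le_two_pow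
          nlinarith [hm.1.2]
        unfold cc
        rw [if_neg (by push Not; exact ⟨by omega, by omega⟩)]
        have h4 : 2 ^ padicValNat 2 m ≤ Na / i := by
          rw [Nat.le_div_iff_mul_le (by omega)]
          rw [← h2]; exact hm.1.2
        have h5 := Nat.le_log_of_pow_le (by norm_num) h4
        show padicValNat 2 m < Nat.log 2 (Na / i) + 1
        omega
      · intro m hm m' hm' he
        rw [Finset.mem_coe, Finset.mem_filter] at hm hm'
        have h2 := op_mul m
        have h3 := op_mul m'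
        simp only at he
        rw [hm.2, he] at h2
        rw [hm'.2] at h3
        exact h2.trans h3.symm
    rwa [Finset.card_range] at h1
  · have h1 : ((Icc 1 Na).filter (fun m => op m = i)) = ∅ := by
      apply Finset.filter_eq_empty_iff.2
      intro m hm he
      rw [Finset.mem_Icc] at hm
      have h2 : 2 ∣ op m := by rw [he]; omega
      have h3 : 2 ^ (padicValNat 2 m + 1) ∣ m := by
        have h4 := op_mul m
        obtain ⟨t, ht⟩ := h2
        refine ⟨t, ?_⟩
        rw [pow_succ, mul_assoc, ← ht]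
        exact h4
      have : Fact (Nat.Prime 2) := ⟨Nat.prime_two⟩
      exact pow_succ_padicValNat_not_dvd (by omega) h3
    rw [h1, Finset.card_empty]
    exact Nat.zero_le _

theorem card_le (Na : ℕ) (hN : Na < 4096) : ∀ M,
    ((Icc 1 Na).filter (fun m => op m ≤ M)).card ≤ cnt Na M := by
  intro M
  induction M with
  | zero =>
    have h1 : ((Icc 1 Na).filter (fun m => op m ≤ 0)) = ∅ := by
      apply Finset.filter_eq_empty_iff.2
      intro m hm he
      rw [Finset.mem_Icc] at hm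
      have h2 := op_mul m
      have h3 : op m = 0 := by omega
      rw [h3, mul_zero] at h2
      omega
    rw [h1, Finset.card_empty]
    exact Nat.zero_le _
  | succ M ih =>
    have h1 : ((Icc 1 Na).filter (fun m => op m ≤ M + 1)) ⊆
        ((Icc 1 Na).filter (fun m => op m ≤ M)) ∪ ((Icc 1 Na).filter (fun m => op m = M + 1)) := by
      intro m hm
      rw [Finset.mem_union, Finset.mem_filter, Finset.mem_filter]
      rw [Finset.mem_filter] at hm
      by_cases h : op m = M + 1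
      · exact Or.inr ⟨hm.1, h⟩
      · exact Or.inl ⟨hm.1, by omega⟩
    calc _ ≤ _ := Finset.card_le_card h1
      _ ≤ _ := Finset.card_union_le _ _
      _ ≤ cnt Na M + cond (Nat.beq ((M + 1) % 2) 1) (LT.ccF Na 12 (M + 1)) 0 :=
        Nat.add_le_add ih (card_eq Na (M + 1) (by omega) hN)

theorem s_ge (Na N k M : ℕ) (hN : Na < 4096) (hNN : Na ≤ N) (hM : M = (k + 1) / 2) :
    Na - cnt Na M ≤ ((Icc 1 N).filter (fun m => k < 2 * op m - 1)).card := by
  have h1 : ((Icc 1 Na).filter (fun m => k < 2 * op m - 1)) ⊆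
      ((Icc 1 N).filter (fun m => k < 2 * op m - 1)) := by
    apply Finset.filter_subset_filter
    exact Finset.Icc_subset_Icc_right hNN
  refine le_trans ?_ (Finset.card_le_card h1)
  have h2 := Finset.card_filter_add_card_filter_not (s := Icc 1 Na) (fun m => k < 2 * op m - 1)
  rw [Nat.card_Icc] at h2
  have h3 : ((Icc 1 Na).filter (fun m => ¬ k < 2 * op m - 1)).card ≤ cnt Na M := by
    refine le_trans (Finset.card_le_card ?_) (card_le Na hN M)
    intro m hm
    rw [Finset.mem_filter] at hm ⊢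
    exact ⟨hm.1, by omega⟩
  omega

theorem blk_sound (hL : LBAStmt) (hM : M4Stmt) (hT : LTabStmt (l1tab ++ l2tab)) (Na Nb : ℕ)
    (l : List (ℕ × ℕ × ℕ)) (hN : Na < 4096) (hNa : 2 ≤ Na)
    (hmem : ∀ e ∈ l, (Na, Nb, e.1, e.2.1, e.2.2) ∈ l1tab ++ l2tab)
    (hok : ∀ e ∈ l, 0 < e.1 ∧ e.1 < 1000 ∧ 0 < e.2.1 ∧ e.2.1 ^ 2 + e.1 ^ 2 < 1000 ^ 2)
    (hb : blk Na Nb l = true) (N k : ℕ) (h1 : Na ≤ N) (h2 : N ≤ Nb) (hk1 : 48 ≤ k) (hk2 : k ≤ 300) :
    ERR N k := by
  simp only [blk, Bool.and_eq_true] at hb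
  have hone : one (l.map (ent Nb)) (Na - cnt Na ((k + 1) / 2)) k = true := by
    by_cases h : k = 48
    · subst h; exact hb.1
    · have h3 := loop_sound Na (l.map (ent Nb)) 126 24 hb.2 ((k + 1) / 2) (by omega) (by omega)
      rcases Nat.even_or_odd' k with ⟨t, ht | ht⟩
      · have e1 : (k + 1) / 2 = t := by omega
        rw [e1] at h3 ⊢
        rw [ht]; exact h3.2
      · have e1 : (k + 1) / 2 = t + 1 := by omega
        rw [e1] at h3 ⊢
        have e2 : k = 2 * (t + 1) - 1 := by omega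
        rw [e2]; exact h3.1
  obtain ⟨hs3, e, he, hc⟩ := one_sound Nb l _ k hone
  obtain ⟨R, Q, G⟩ := e
  obtain ⟨ho1, ho2, ho3, ho4⟩ := hok _ he
  have hs := s_ge Na N k ((k + 1) / 2) hN h1 rfl
  have hlba := hL N k _ rfl (hs3.trans hs)
  have hch : (Na - cnt Na ((k + 1) / 2) - 2 + k).choose k ≤
      (((Icc 1 N).filter (fun m => k < 2 * op m - 1)).card - 2 + k).choose k :=
    Nat.choose_le_choose k (by omega)
  have hb1 := LLc.err_bound hM hT Na Nb R Q G N k (hmem _ he) ho1 ho2 ho3 ho4 (by omega) h2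
  have hb2 := LLc.int_check Nb R Q G k _ ho1 ho2 ho3 hc
  unfold ERR
  have hNN : (N : ℝ) ^ 2 ≤ (Nb : ℝ) ^ 2 := by
    have : (N : ℝ) ≤ Nb := by exact_mod_cast h2
    gcongr
  have hfin : ((N : ℤ) ^ 2 * (|df (U (N - 2) N * _root_.Pool.Agent.H37.UM.Q (N - 2)) k| +
      |df (U (N - 1) N * _root_.Pool.Agent.H37.UM.Q (N - 1)) k| +
      |df (_root_.Pool.Agent.H37.UM.Q N) k|) : ℤ) ≤
      ((2 * (Na - cnt Na ((k + 1) / 2) - 2 + k).choose k : ℕ) : ℤ) := by
    have hr : (((N : ℤ) ^ 2 * (|df (U (N - 2) N * _root_.Pool.Agent.H37.UM.Q (N - 2)) k| +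
      |df (U (N - 1) N * _root_.Pool.Agent.H37.UM.Q (N - 1)) k| +
      |df (_root_.Pool.Agent.H37.UM.Q N) k|) : ℤ) : ℝ) ≤
      (((2 * (Na - cnt Na ((k + 1) / 2) - 2 + k).choose k : ℕ) : ℤ) : ℝ) := by
      rw [Int.cast_mul]
      have e3 : (((N : ℤ) ^ 2 : ℤ) : ℝ) = (N : ℝ) ^ 2 := by push_cast; ring
      rw [e3]
      have h0 : (0 : ℝ) ≤ ((|df (U (N - 2) N * _root_.Pool.Agent.H37.UM.Q (N - 2)) k| +
        |df (U (N - 1) N * _root_.Pool.Agent.H37.UM.Q (N - 1)) k| +
        |df (_root_.Pool.Agent.H37.UM.Q N) k| : ℤ) : ℝ) := by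
        exact_mod_cast by positivity
      refine le_trans (mul_le_mul hNN hb1 h0 (by positivity)) ?_
      refine le_trans hb2 ?_
      push_cast
      exact le_rfl
    exact_mod_cast hr
  refine hfin.trans ?_
  have h5 : ((2 * (Na - cnt Na ((k + 1) / 2) - 2 + k).choose k : ℕ) : ℤ) ≤
      2 * ((((Icc 1 N).filter (fun m => k < 2 * op m - 1)).card - 2 + k).choose k : ℤ) := by
    push_cast
    have : (((Na - cnt Na ((k + 1) / 2) - 2 + k).choose k : ℕ) : ℤ) ≤
      ((((Icc 1 N).filter (fun m => k < 2 * op m - 1)).card - 2 + k).choose k : ℕ) := by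
      exact_mod_cast hch
    linarith
  refine h5.trans ?_
  linarith

end LL1m

set_option maxRecDepth 100000 in
theorem LL1a : LL1m.blk 400 420 [(550, 832, 80628730), (625, 778, 267373299)] = true := by
  decide +kernel
set_option maxRecDepth 100000 in
theorem LL1b : LL1m.blk 421 484 [(225, 943, 158949516000), (525, 849, 136141882), (600, 798, 220783347)] = true := by
  decide +kernel
set_option maxRecDepth 100000 in
theorem LL1c : LL1m.blk 485 606 [(475, 878, 584365128)] = true := by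
  decide +kernel
set_option maxRecDepth 100000 in
theorem LL1d : LL1m.blk 607 758 [(350, 934, 551194878650)] = true := by
  decide +kernel
set_option maxRecDepth 100000 in
theorem LL1e : LL1m.blk 759 948 [(275, 956, 7270162802505135)] = true := by
  decide +kernel
set_option maxRecDepth 100000 in
theorem LL1f : LL1m.blk 949 1186 [(225, 963, 1563434564427501860)] = true := by
  decide +kernel
set_option maxRecDepth 100000 in
theorem LL1g : LL1m.blk 1187 1299 [(175, 965, 4628679491169571760)] = true := by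
  decide +kernel

theorem LL1_thm (hL : LBAStmt) (hM : M4Stmt) (hT : LTabStmt (l1tab ++ l2tab)) : LL1Stmt := by
  intro N k h1 h2 hk1 hk2
  by_cases c1 : N ≤ 420
  · exact LL1m.blk_sound hL hM hT 400 420 _ (by norm_num) (by norm_num) (by decide) (by decide) LL1a N k h1 c1 hk1 hk2
  by_cases c2 : N ≤ 484
  · exact LL1m.blk_sound hL hM hT 421 484 _ (by norm_num) (by norm_num) (by decide) (by decide) LL1b N k (by omega) c2 hk1 hk2
  by_cases c3 : N ≤ 606
  · exact LL1m.blk_sound hL hM hT 485 606 _ (by norm_num) (by norm_num) (by decide) (by decide) LL1c N k (by omega) c3 hk1 hk2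
  by_cases c4 : N ≤ 758
  · exact LL1m.blk_sound hL hM hT 607 758 _ (by norm_num) (by norm_num) (by decide) (by decide) LL1d N k (by omega) c4 hk1 hk2
  by_cases c5 : N ≤ 948
  · exact LL1m.blk_sound hL hM hT 759 948 _ (by norm_num) (by norm_num) (by decide) (by decide) LL1e N k (by omega) c5 hk1 hk2
  by_cases c6 : N ≤ 1186
  · exact LL1m.blk_sound hL hM hT 949 1186 _ (by norm_num) (by norm_num) (by decide) (by decide) LL1f N k (by omega) c6 hk1 hk2
  · exact LL1m.blk_sound hL hM hT 1187 1299 _ (by norm_num) (by norm_num) (by decide) (by decide) LL1g N k (by omega) (by omega) hk1 hk2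

end Pool.Agent.H37.UM
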