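import Pool.Agent.H65.UM.LLcommon
import Pool.Agent.H65.UM.LTAB

/-! # Module LL2 -/

set_option autoImplicit false

namespace Pool.Agent.H37.UM

open PowerSeries Finset

namespace LL2m

def ivN (B K n : ℕ) : ℕ := (2 ^ (B * min n K) - 1) / (2 ^ B - 1)

def fN (B K : ℕ) : ℕ → ℕ → ℕ
  | 0, _ => 0
  | f + 1, m => cond (Nat.beq (m % 2) 1) (ivN B K m)
    ((fun u => cond (Nat.ble (m + 1) K) (u * (1 + 2 ^ (B * m))) u) (fN B K f (m / 2)))

def dl (BB L Rh R : ℕ) : ℕ → ℕ → ℕ → ℕ → Bool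
  | 0, _, _, _ => true
  | f + 1, k, prev, t =>
    (fun d => (Nat.ble k 47 || Nat.ble (L * 1000 ^ k + 2 * prev * (Rh * R ^ k)) (2 * d * (Rh * R ^ k)))
      && dl BB L Rh R f (k + 1) d (t / BB)) (t % BB)

def chkN (BB m t : ℕ) : Bool :=
  cond (Nat.ble m 249) true
  (cond (Nat.ble m 300) (dl BB (LLc.lhs 300 425 899 295683100) (LLc.rhs 300 425 899) 425 301 0 0 t)
  (cond (Nat.ble m 361) (dl BB (LLc.lhs 361 375 919 2881998441) (LLc.rhs 361 375 919) 375 301 0 0 t)
  (dl BB (LLc.lhs 399 350 928 16926684733) (LLc.rhs 399 350 928) 350 301 0 0 t)))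

def ml (B K BB MM : ℕ) : ℕ → ℕ → ℕ → Bool
  | 0, _, _ => true
  | f + 1, m, t => (fun t' => chkN BB (m + 1) t' && ml B K BB MM f (m + 1) t')
    (t * fN B K 10 (m + 1) % MM)

def mlF (B K : ℕ) : Bool := ml B K (2 ^ B) (2 ^ (B * K)) 399 0 1

set_option maxRecDepth 100000 in
theorem mlt : mlF 704 302 = true := by decide +kernel

/-! ### packing -/

theorem z_pow_zero (B K i : ℕ) (hi : K ≤ i) :
    (((2 : ZMod (2 ^ (B * K))) ^ B) ^ i) = 0 := by
  rw [← pow_mul]
  obtain ⟨d, rfl⟩ := Nat.exists_eq_add_of_le hi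
  have e : B * (K + d) = B * K + B * d := by ring
  rw [e, pow_add]
  have h := ZMod.natCast_self (2 ^ (B * K))
  rw [Nat.cast_pow] at h
  have h' : (2 : ZMod (2 ^ (B * K))) ^ (B * K) = 0 := by
    exact_mod_cast h
  rw [h', zero_mul]

theorem pk_zero (B K : ℕ) : pk B K 0 = 0 := by
  unfold pk; simp

theorem pk_iv_sum (hP : PACKStmt) (B K n : ℕ) :
    pk B K (iv n) = ∑ i ∈ range n, ((2 : ZMod (2 ^ (B * K))) ^ B) ^ i := by
  unfold iv
  induction n with
  | zero => simp [pk_zero]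
  | succ n ih => rw [Finset.sum_range_succ, hP.2.1, ih, hP.2.2.2.2.1, Finset.sum_range_succ]

theorem pk_iv (hP : PACKStmt) (B K n : ℕ) (hB : 1 ≤ B) :
    pk B K (iv n) = ((ivN B K n : ℕ) : ZMod (2 ^ (B * K))) := by
  rw [pk_iv_sum hP]
  have h1 : ivN B K n = ∑ i ∈ range (min n K), (2 ^ B) ^ i := by
    unfold ivN
    rw [Nat.geomSum_eq (by calc 2 = 2 ^ 1 := by norm_num
      _ ≤ 2 ^ B := Nat.pow_le_pow_right (by norm_num) hB), ← pow_mul]
  rw [h1]
  push_cast
  rcases le_total n K with h | h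
  · rw [min_eq_left h]
  · rw [min_eq_right h]
    symm
    apply Finset.sum_subset
    · intro i hi; rw [Finset.mem_range] at hi ⊢; omega
    · intro i _ hi
      rw [Finset.mem_range] at hi
      exact z_pow_zero B K i (by omega)

theorem F_odd (hO : OPStmt) (n : ℕ) : F (2 * n + 1) = iv (2 * n + 1) := by
  unfold F
  rw [hO.2.2]
  have : padicValNat 2 (2 * n + 1) = 0 := by
    apply padicValNat.eq_zero_of_not_dvd
    omega
  rw [this]
  simp

theorem F_even (hO : OPStmt) (n : ℕ) (hn : 1 ≤ n) : F (2 * n) = F n * (1 + X ^ (2 * n)) := by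
  unfold F
  rw [hO.2.1 n hn]
  have : Fact (Nat.Prime 2) := ⟨Nat.prime_two⟩
  have h1 : padicValNat 2 (2 * n) = padicValNat 2 n + 1 := by
    rw [padicValNat.mul (by norm_num) (by omega), padicValNat_self]
    ring
  rw [h1, Finset.prod_range_succ, mul_assoc]
  have h2 := (hO.1 n hn).2.2.2
  have h3 : 2 ^ (padicValNat 2 n + 1) * op n = 2 * n := by
    rw [pow_succ]
    calc 2 ^ padicValNat 2 n * 2 * op n = 2 * (2 ^ padicValNat 2 n * op n) := by ring
      _ = 2 * n := by rw [← h2]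
  rw [h3]

theorem pk_F (hP : PACKStmt) (hO : OPStmt) (B K : ℕ) (hB : 1 ≤ B) (hK : 1 ≤ K) :
    ∀ f m, 1 ≤ m → m < 2 ^ f → pk B K (F m) = ((fN B K f m : ℕ) : ZMod (2 ^ (B * K))) := by
  intro f
  induction f with
  | zero => intro m h1 h2; simp at h2; omega
  | succ f ih =>
    intro m h1 h2
    rcases Nat.even_or_odd' m with ⟨n, hn | hn⟩
    · have hn1 : 1 ≤ n := by omega
      have e1 : fN B K (f + 1) m =
          cond (Nat.ble (m + 1) K) (fN B K f n * (1 + 2 ^ (B * m))) (fN B K f n) := by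
        simp only [fN]
        have e2 : m % 2 = 0 := by omega
        have e3 : m / 2 = n := by omega
        rw [e2, e3]
        rfl
      rw [e1]
      have h4 : pk B K (F m) = ((fN B K f n : ℕ) : ZMod (2 ^ (B * K))) *
          (1 + ((2 : ZMod (2 ^ (B * K))) ^ B) ^ m) := by
        rw [hn, F_even hO n hn1, hP.1, hP.2.1, hP.2.2.2.1 _ _ hK, hP.2.2.2.2.1,
          ih n hn1 (by rw [pow_succ] at h2; omega)]
      rw [h4]
      by_cases h5 : m + 1 ≤ K
      · rw [Nat.ble_eq_true_of_le h5, cond_true]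
        push_cast
        rw [← pow_mul]
      · have e6 : Nat.ble (m + 1) K = false := by
          rw [← Bool.not_eq_true, Nat.ble_eq]; exact h5
        rw [e6, cond_false, z_pow_zero B K m (by omega), add_zero, mul_one]
    · have e1 : fN B K (f + 1) m = ivN B K m := by
        simp only [fN]
        have e2 : m % 2 = 1 := by omega
        rw [e2]
        rfl
      rw [e1, hn, F_odd hO, pk_iv hP B K _ hB]

theorem T_succ (m : ℕ) : T (m + 1) = T m * F (m + 1) := by
  unfold T U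
  rw [← Finset.insert_Ioc_right_eq_Ioc_add_one (by omega), Finset.prod_insert (by simp), mul_comm]

theorem T_zero : T 0 = 1 := by unfold T U; simp

theorem ml_sound (hP : PACKStmt) (hO : OPStmt) (B K BB MM : ℕ) (hB : 1 ≤ B) (hK : 1 ≤ K)
    (hMM : MM = 2 ^ (B * K)) : ∀ f m t, ml B K BB MM f m t = true → m + f ≤ 1000 →
    ((t : ℕ) : ZMod (2 ^ (B * K))) = pk B K (T m) →
    ∀ m', m < m' → m' ≤ m + f → ∃ t', t' < MM ∧
      ((t' : ℕ) : ZMod (2 ^ (B * K))) = pk B K (T m') ∧ chkN BB m' t' = true := by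
  intro f
  induction f with
  | zero => intro m t _ _ _ m' h1 h2; omega
  | succ f ih =>
    intro m t h hm ht m' h1 h2
    simp only [ml, Bool.and_eq_true] at h
    have ht' : ((t * fN B K 10 (m + 1) % MM : ℕ) : ZMod (2 ^ (B * K))) =
        pk B K (T (m + 1)) := by
      rw [T_succ, hP.1, ← ht, pk_F hP hO B K hB hK 10 (m + 1) (by omega) (by norm_num; omega)]
      have : ((t * fN B K 10 (m + 1) % (2 ^ (B * K)) : ℕ) : ZMod (2 ^ (B * K))) =
        ((t * fN B K 10 (m + 1) : ℕ) : ZMod (2 ^ (B * K))) := ZMod.natCast_mod _ _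
      rw [hMM, this]
      push_cast
      rfl
    by_cases he : m' = m + 1
    · subst he
      exact ⟨_, Nat.mod_lt _ (by rw [hMM]; positivity), ht', h.1⟩
    · exact ih (m + 1) _ h.2 (by omega) ht' m' (by omega) (by omega)

def pv (BB prev t j : ℕ) : ℕ := if j = 0 then prev else t / BB ^ (j - 1) % BB

theorem dl_sound (BB L Rh R : ℕ) : ∀ f k prev t, dl BB L Rh R f k prev t = true → ∀ j, j < f →
    48 ≤ k + j → L * 1000 ^ (k + j) + 2 * pv BB prev t j * (Rh * R ^ (k + j)) ≤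
      2 * (t / BB ^ j % BB) * (Rh * R ^ (k + j)) := by
  intro f
  induction f with
  | zero => intro k prev t _ j hj; omega
  | succ f ih =>
    intro k prev t h j hj hkj
    simp only [dl, Bool.and_eq_true, Bool.or_eq_true, Nat.ble_eq] at h
    rcases Nat.eq_zero_or_pos j with h0 | h0
    · subst h0
      rcases h.1 with h1 | h1
      · omega
      · simpa [pv] using h1
    · have h2 := ih (k + 1) (t % BB) (t / BB) h.2 (j - 1) (by omega) (by omega)
      have e1 : k + 1 + (j - 1) = k + j := by omega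
      rw [e1] at h2
      have e2 : t / BB / BB ^ (j - 1) = t / BB ^ j := by
        rw [Nat.div_div_eq_div_mul, ← pow_succ']
        congr 2; omega
      rw [e2] at h2
      have e3 : pv BB (t % BB) (t / BB) (j - 1) = pv BB prev t j := by
        unfold pv
        rw [if_neg (by omega : ¬ j = 0)]
        by_cases h3 : j - 1 = 0
        · rw [if_pos h3, h3]; simp
        · rw [if_neg h3]
          rw [Nat.div_div_eq_div_mul, ← pow_succ']
          congr 3; omega
      rw [e3] at h2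
      exact h2

theorem sum_two (N : ℕ) : ∀ k, ∑ i ∈ range (k + 1), (2 : ℤ) ^ (N + i) ≤ 2 ^ (N + 1 + k) := by
  intro k
  induction k with
  | zero =>
    simp only [zero_add, Finset.sum_range_one, add_zero]
    exact pow_le_pow_right₀ (by norm_num) (by omega)
  | succ k ih =>
    rw [Finset.sum_range_succ]
    have e1 : (2 : ℤ) ^ (N + (k + 1)) = 2 ^ (N + 1 + k) := by congr 1; omega
    have e2 : (2 : ℤ) ^ (N + 1 + (k + 1)) = 2 * 2 ^ (N + 1 + k) := by
      rw [← pow_succ']; congr 1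
    rw [e1, e2]
    linarith

theorem T_coeff_le (hF : FFStmt) (hU : UUStmt) : ∀ N k, coeff k (T N) ≤ (2 : ℤ) ^ (N + k) := by
  intro N
  induction N with
  | zero =>
    intro k
    rw [T_zero, PowerSeries.coeff_one]
    split_ifs
    · exact one_le_pow₀ (by norm_num)
    · positivity
  | succ N ih =>
    intro k
    rw [T_succ, PowerSeries.coeff_mul]
    calc ∑ p ∈ antidiagonal k, coeff p.1 (T N) * coeff p.2 (F (N + 1))
        ≤ ∑ p ∈ antidiagonal k, (2 : ℤ) ^ (N + p.1) := by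
          apply Finset.sum_le_sum
          intro p _
          rw [hF.1 (N + 1) (by omega)]
          have h0 : 0 ≤ coeff p.1 (T N) := hU.2.1 0 N p.1
          split_ifs
          · rw [mul_one]; exact ih p.1
          · rw [mul_zero]; positivity
      _ = ∑ i ∈ range (k + 1), (2 : ℤ) ^ (N + i) :=
          Finset.Nat.sum_antidiagonal_eq_sum_range_succ (fun i _ => (2 : ℤ) ^ (N + i)) k
      _ ≤ _ := sum_two N k

theorem df_eq (f : ℤ⟦X⟧) (k : ℕ) (hk : 1 ≤ k) : df f k = coeff k f - coeff (k - 1) f := by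
  unfold df
  obtain ⟨n, rfl⟩ : ∃ n, k = n + 1 := ⟨k - 1, by omega⟩
  rw [sub_mul, one_mul, map_sub, PowerSeries.coeff_succ_X_mul]
  rfl

theorem fin (hP : PACKStmt) (hM : M4Stmt) (hT : LTabStmt (l1tab ++ l2tab)) (hF : FFStmt)
    (hU : UUStmt) (B K Na Nb R Q G N k t' : ℕ) (hB : B = 704) (hK : K = 302)
    (he : (Na, Nb, R, Q, G) ∈ l1tab ++ l2tab) (hR0 : 0 < R) (hR : R < 1000) (hQ0 : 0 < Q)
    (hRQ : Q ^ 2 + R ^ 2 < 1000 ^ 2) (hN2 : 2 ≤ N) (hN : N ≤ Nb) (hN400 : N < 400)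
    (hk1 : 48 ≤ k) (hk2 : k ≤ 300) (ht : t' < 2 ^ (B * K))
    (ht2 : ((t' : ℕ) : ZMod (2 ^ (B * K))) = pk B K (T N))
    (hd : dl (2 ^ B) (LLc.lhs Nb R Q G) (LLc.rhs Nb R Q) R 301 0 0 t' = true) : ERR N k := by
  have hval : (pk B K (T N)).val = t' := by
    rw [← ht2]
    apply ZMod.val_natCast_of_lt
    exact ht
  have hco : ∀ k, k < K → 0 ≤ coeff k (T N) ∧ coeff k (T N) < (2 : ℤ) ^ B := by
    intro k hk
    refine ⟨hU.2.1 0 N k, lt_of_le_of_lt (T_coeff_le hF hU N k) ?_⟩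
    exact pow_lt_pow_right₀ (by norm_num) (by omega)
  have hdig : ∀ k, k < K → coeff k (T N) = ((t' / (2 ^ B) ^ k % 2 ^ B : ℕ) : ℤ) := by
    intro k hk
    have h := hP.2.2.2.2.2 B K (T N) k hco hk
    rw [hval] at h
    rw [h]
    rw [← pow_mul]
  have hs := dl_sound _ _ _ _ 301 0 0 t' hd k (by omega) (by omega)
  rw [zero_add] at hs
  unfold pv at hs
  rw [if_neg (by omega)] at hs
  set c := t' / (2 ^ B) ^ k % 2 ^ B with hc
  set c' := t' / (2 ^ B) ^ (k - 1) % 2 ^ B with hc'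
  have hrr : 0 < LLc.rhs Nb R Q * R ^ k := by
    unfold LLc.rhs
    have : 0 < 1000 - R := by omega
    positivity
  have hcc : c' ≤ c := by
    have h5 : 2 * c' * (LLc.rhs Nb R Q * R ^ k) ≤ 2 * c * (LLc.rhs Nb R Q * R ^ k) := by omega
    have := Nat.le_of_mul_le_mul_right h5 hrr
    omega
  have h6 : LLc.lhs Nb R Q G * 1000 ^ k ≤ 2 * (c - c') * (LLc.rhs Nb R Q * R ^ k) := by
    have h7 : 2 * (c - c') * (LLc.rhs Nb R Q * R ^ k) =
        2 * c * (LLc.rhs Nb R Q * R ^ k) - 2 * c' * (LLc.rhs Nb R Q * R ^ k) := by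
      rw [← Nat.sub_mul, Nat.mul_sub]
    omega
  have hb1 := LLc.err_bound hM hT Na Nb R Q G N k he hR0 hR hQ0 hRQ hN2 hN
  have hb2 := LLc.int_check Nb R Q G k _ hR0 hR hQ0 h6
  have hdf : df (T N) k = ((c - c' : ℕ) : ℤ) := by
    rw [df_eq _ _ (by omega), hdig k (by omega), hdig (k - 1) (by omega), Nat.cast_sub hcc]
  unfold ERR
  rw [hdf]
  have hNN : (N : ℝ) ^ 2 ≤ (Nb : ℝ) ^ 2 := by
    have : (N : ℝ) ≤ Nb := by exact_mod_cast hN
    gcongr
  have hr : (((N : ℤ) ^ 2 * (|df (U (N - 2) N * _root_.Pool.Agent.H37.UM.Q (N - 2)) k| +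
      |df (U (N - 1) N * _root_.Pool.Agent.H37.UM.Q (N - 1)) k| +
      |df (_root_.Pool.Agent.H37.UM.Q N) k|) : ℤ) : ℝ) ≤
      ((2 * ((c - c' : ℕ) : ℤ) : ℤ) : ℝ) := by
    rw [Int.cast_mul]
    have e3 : (((N : ℤ) ^ 2 : ℤ) : ℝ) = (N : ℝ) ^ 2 := by push_cast; ring
    rw [e3]
    have h0 : (0 : ℝ) ≤ ((|df (U (N - 2) N * _root_.Pool.Agent.H37.UM.Q (N - 2)) k| +
      |df (U (N - 1) N * _root_.Pool.Agent.H37.UM.Q (N - 1)) k| +
      |df (_root_.Pool.Agent.H37.UM.Q N) k| : ℤ) : ℝ) := by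
      exact_mod_cast by positivity
    refine le_trans (mul_le_mul hNN hb1 h0 (by positivity)) ?_
    refine le_trans hb2 ?_
    push_cast
    exact le_rfl
  exact_mod_cast hr

end LL2m

theorem LL2_gen (hP : PACKStmt) (hM : M4Stmt) (hT : LTabStmt (l1tab ++ l2tab)) (hO : OPStmt)
    (hF : FFStmt) (hU : UUStmt) (B K : ℕ) (hB : B = 704) (hK : K = 302)
    (hml : LL2m.mlF B K = true) : LL2Stmt := by
  intro N k h1 h2 hk1 hk2
  have h0 : (((1 : ℕ) : ℕ) : ZMod (2 ^ (B * K))) = pk B K (T 0) := by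
    rw [LL2m.T_zero, hP.2.2.2.1 _ _ (by omega), Nat.cast_one]
  obtain ⟨t', ht1, ht2, ht3⟩ := LL2m.ml_sound hP hO B K (2 ^ B) (2 ^ (B * K)) (by omega) (by omega)
    rfl 399 0 1 hml (by norm_num) h0 N (by omega) (by omega)
  unfold LL2m.chkN at ht3
  have e1 : Nat.ble N 249 = false := by
    rw [← Bool.not_eq_true, Nat.ble_eq]; omega
  rw [e1, cond_false] at ht3
  by_cases c1 : N ≤ 300
  · rw [Nat.ble_eq_true_of_le c1, cond_true] at ht3
    exact LL2m.fin hP hM hT hF hU B K 250 300 425 899 295683100 N k t' hB hK (by decide) (by norm_num)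
      (by norm_num) (by norm_num) (by norm_num) (by omega) c1 h2 hk1 hk2 ht1 ht2 ht3
  · have e2 : Nat.ble N 300 = false := by
      rw [← Bool.not_eq_true, Nat.ble_eq]; omega
    rw [e2, cond_false] at ht3
    by_cases c2 : N ≤ 361
    · rw [Nat.ble_eq_true_of_le c2, cond_true] at ht3
      exact LL2m.fin hP hM hT hF hU B K 301 361 375 919 2881998441 N k t' hB hK (by decide) (by norm_num)
        (by norm_num) (by norm_num) (by norm_num) (by omega) c2 h2 hk1 hk2 ht1 ht2 ht3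
    · have e3 : Nat.ble N 361 = false := by
        rw [← Bool.not_eq_true, Nat.ble_eq]; omega
      rw [e3, cond_false] at ht3
      exact LL2m.fin hP hM hT hF hU B K 362 399 350 928 16926684733 N k t' hB hK (by decide) (by norm_num)
        (by norm_num) (by norm_num) (by norm_num) (by omega) (by omega) h2 hk1 hk2 ht1 ht2 ht3

theorem LL2_thm (hP : PACKStmt) (hM : M4Stmt) (hT : LTabStmt (l1tab ++ l2tab)) (hO : OPStmt)
    (hF : FFStmt) (hU : UUStmt) : LL2Stmt :=
  LL2_gen hP hM hT hO hF hU 704 302 rfl rfl LL2m.mlt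

end Pool.Agent.H37.UM
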