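import Pool.Agent.H37.UM.Stmts
import Pool.Agent.H37.UM.Tab

/-! # Common part of LL1 and LL2 -/

set_option autoImplicit false

namespace Pool.Agent.H37.UM

open PowerSeries Finset

namespace LLc

theorem U_self (N : ℕ) : U N N = 1 := by unfold U; simp

/-- bound of the three error terms from an entry of the table -/
theorem err_bound (hM : M4Stmt) (hT : LTabStmt (l1tab ++ l2tab)) (Na Nb R Q G N k : ℕ)
    (he : (Na, Nb, R, Q, G) ∈ l1tab ++ l2tab) (hR0 : 0 < R) (hR : R < 1000) (hQ0 : 0 < Q)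
    (hRQ : Q ^ 2 + R ^ 2 < 1000 ^ 2) (hN2 : 2 ≤ N) (hN : N ≤ Nb) :
    ((|df (U (N - 2) N * _root_.Pool.Agent.H37.UM.Q (N - 2)) k| +
      |df (U (N - 1) N * _root_.Pool.Agent.H37.UM.Q (N - 1)) k| +
      |df (_root_.Pool.Agent.H37.UM.Q N) k| : ℤ) : ℝ) ≤
      (1 + (R : ℝ) / 1000) * (((R : ℝ) / 1000) ^ k)⁻¹ * G * (((Q : ℝ) / 1000) ^ Nb)⁻¹ *
        (1 + (Q : ℝ) / 1000 / (1 - (R : ℝ) / 1000) +
          ((Q : ℝ) / 1000 / (1 - (R : ℝ) / 1000)) ^ 2) := by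
  set r : ℝ := (R : ℝ) / 1000 with hr
  set q : ℝ := (Q : ℝ) / 1000 with hq
  have hR' : (0 : ℝ) < R := by exact_mod_cast hR0
  have hQ' : (0 : ℝ) < Q := by exact_mod_cast hQ0
  have hR1 : (R : ℝ) < 1000 := by exact_mod_cast hR
  have hr0 : 0 < r := by rw [hr]; positivity
  have hq0 : 0 < q := by rw [hq]; positivity
  have hr1 : r < 1 := by rw [hr, div_lt_one (by norm_num)]; exact hR1
  have hqr : q ^ 2 < 1 - r ^ 2 := by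
    have h1 : (Q : ℝ) ^ 2 + (R : ℝ) ^ 2 < 1000 ^ 2 := by exact_mod_cast hRQ
    rw [hr, hq, div_pow, div_pow]
    have h2 : (Q : ℝ) ^ 2 / 1000 ^ 2 + (R : ℝ) ^ 2 / 1000 ^ 2 < 1 := by
      rw [← add_div, div_lt_one (by norm_num)]; exact h1
    linarith
  have hq1 : q < 1 := by nlinarith [sq_nonneg r]
  have h1r : 0 < 1 - r := by linarith
  have hG0 : (0 : ℝ) ≤ (G : ℝ) := by positivity
  have hA : 0 ≤ (1 + r) * (r ^ k)⁻¹ := by positivity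
  have hone : ∀ j, j ≤ Nb →
      (∏ i ∈ Icc 1 j, (1 + r ^ i) ^ cc j i) * ∏ i ∈ Icc 2 j, (1 - q ^ i / (1 - r ^ i))⁻¹ ≤ G := by
    intro j hj
    exact hT _ he j hj
  have hqN : (q ^ N)⁻¹ ≤ (q ^ Nb)⁻¹ := by
    apply inv_anti₀ (by positivity)
    exact pow_le_pow_of_le_one hq0.le hq1.le hN
  have b2 : ((|df (U (N - 2) N * _root_.Pool.Agent.H37.UM.Q (N - 2)) k| : ℤ) : ℝ) ≤
      (1 + r) * (r ^ k)⁻¹ * G * (q ^ Nb)⁻¹ * (q / (1 - r)) ^ 2 := by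
    have h := hM N (N - 2) k r q (by omega) hr0 hr1 hq0 hqr
    have e1 : N - (N - 2) = 2 := by omega
    rw [e1] at h
    have e2 : (q ^ (N - 2))⁻¹ = q ^ 2 * (q ^ N)⁻¹ := by
      have : q ^ N = q ^ (N - 2) * q ^ 2 := by rw [← pow_add]; congr 1; omega
      rw [this]; field_simp
    rw [e2] at h
    push_cast
    refine h.trans ?_
    have h3 := hone (N - 2) (by omega)
    calc (1 + r) * (r ^ k)⁻¹ * (1 - r)⁻¹ ^ 2 * (q ^ 2 * (q ^ N)⁻¹) *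
          ((∏ i ∈ Icc 1 (N - 2), (1 + r ^ i) ^ cc (N - 2) i) *
            ∏ i ∈ Icc 2 (N - 2), (1 - q ^ i / (1 - r ^ i))⁻¹)
        ≤ (1 + r) * (r ^ k)⁻¹ * (1 - r)⁻¹ ^ 2 * (q ^ 2 * (q ^ N)⁻¹) * G := by gcongr
      _ ≤ (1 + r) * (r ^ k)⁻¹ * (1 - r)⁻¹ ^ 2 * (q ^ 2 * (q ^ Nb)⁻¹) * G := by gcongr
      _ = _ := by
        rw [div_eq_mul_inv q (1 - r), mul_pow]
        generalize (1 - r)⁻¹ = t
        ring
  have b1 : ((|df (U (N - 1) N * _root_.Pool.Agent.H37.UM.Q (N - 1)) k| : ℤ) : ℝ) ≤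
      (1 + r) * (r ^ k)⁻¹ * G * (q ^ Nb)⁻¹ * (q / (1 - r)) := by
    have h := hM N (N - 1) k r q (by omega) hr0 hr1 hq0 hqr
    have e1 : N - (N - 1) = 1 := by omega
    rw [e1] at h
    have e2 : (q ^ (N - 1))⁻¹ = q * (q ^ N)⁻¹ := by
      have : q ^ N = q ^ (N - 1) * q := by rw [← pow_succ]; congr 1; omega
      rw [this]; field_simp
    rw [e2, pow_one] at h
    push_cast
    refine h.trans ?_
    have h3 := hone (N - 1) (by omega)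
    calc (1 + r) * (r ^ k)⁻¹ * (1 - r)⁻¹ * (q * (q ^ N)⁻¹) *
          ((∏ i ∈ Icc 1 (N - 1), (1 + r ^ i) ^ cc (N - 1) i) *
            ∏ i ∈ Icc 2 (N - 1), (1 - q ^ i / (1 - r ^ i))⁻¹)
        ≤ (1 + r) * (r ^ k)⁻¹ * (1 - r)⁻¹ * (q * (q ^ N)⁻¹) * G := by gcongr
      _ ≤ (1 + r) * (r ^ k)⁻¹ * (1 - r)⁻¹ * (q * (q ^ Nb)⁻¹) * G := by gcongr
      _ = _ := by rw [div_eq_mul_inv]; ring
  have b0 : ((|df (_root_.Pool.Agent.H37.UM.Q N) k| : ℤ) : ℝ) ≤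
      (1 + r) * (r ^ k)⁻¹ * G * (q ^ Nb)⁻¹ * 1 := by
    have h := hM N N k r q le_rfl hr0 hr1 hq0 hqr
    rw [U_self, one_mul, Nat.sub_self, pow_zero] at h
    push_cast
    refine h.trans ?_
    have h3 := hone N hN
    calc (1 + r) * (r ^ k)⁻¹ * 1 * (q ^ N)⁻¹ *
          ((∏ i ∈ Icc 1 N, (1 + r ^ i) ^ cc N i) *
            ∏ i ∈ Icc 2 N, (1 - q ^ i / (1 - r ^ i))⁻¹)
        ≤ (1 + r) * (r ^ k)⁻¹ * 1 * (q ^ N)⁻¹ * G := by gcongr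
      _ ≤ (1 + r) * (r ^ k)⁻¹ * 1 * (q ^ Nb)⁻¹ * G := by gcongr
      _ = _ := by ring
  rw [Int.cast_add, Int.cast_add]
  calc _ ≤ (1 + r) * (r ^ k)⁻¹ * G * (q ^ Nb)⁻¹ * (q / (1 - r)) ^ 2 +
        (1 + r) * (r ^ k)⁻¹ * G * (q ^ Nb)⁻¹ * (q / (1 - r)) +
        (1 + r) * (r ^ k)⁻¹ * G * (q ^ Nb)⁻¹ * 1 := by gcongr
    _ = _ := by ring

/-- left side of the integer check (the part not depending on `k`) -/
def lhs (Nb R Q G : ℕ) : ℕ :=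
  Nb ^ 2 * (1000 + R) * G * 1000 ^ Nb * ((1000 - R) ^ 2 + Q * (1000 - R) + Q ^ 2)

/-- right side of the integer check (the part not depending on `k`) -/
def rhs (Nb R Q : ℕ) : ℕ := 1000 * Q ^ Nb * (1000 - R) ^ 2

theorem int_check (Nb R Q G k C : ℕ) (hR0 : 0 < R) (hR : R < 1000) (hQ0 : 0 < Q)
    (h : lhs Nb R Q G * 1000 ^ k ≤ C * (rhs Nb R Q * R ^ k)) :
    (Nb : ℝ) ^ 2 * ((1 + (R : ℝ) / 1000) * (((R : ℝ) / 1000) ^ k)⁻¹ * G *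
      (((Q : ℝ) / 1000) ^ Nb)⁻¹ * (1 + (Q : ℝ) / 1000 / (1 - (R : ℝ) / 1000) +
          ((Q : ℝ) / 1000 / (1 - (R : ℝ) / 1000)) ^ 2)) ≤ C := by
  have hR' : (0 : ℝ) < R := by exact_mod_cast hR0
  have hQ' : (0 : ℝ) < Q := by exact_mod_cast hQ0
  have hR1 : (R : ℝ) < 1000 := by exact_mod_cast hR
  have ha : (0 : ℝ) < 1000 - R := by linarith
  have e1 : (Q : ℝ) / 1000 / (1 - (R : ℝ) / 1000) = Q / (1000 - R) := by
    have : 1 - (R : ℝ) / 1000 = (1000 - R) / 1000 := by ring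
    rw [this]; field_simp
  have h2 : ((lhs Nb R Q G * 1000 ^ k : ℕ) : ℝ) ≤ ((C * (rhs Nb R Q * R ^ k) : ℕ) : ℝ) := by
    exact_mod_cast h
  unfold lhs rhs at h2
  push_cast [Nat.cast_sub hR.le] at h2
  rw [e1]
  have e2 : (Nb : ℝ) ^ 2 * ((1 + (R : ℝ) / 1000) * (((R : ℝ) / 1000) ^ k)⁻¹ * G *
      (((Q : ℝ) / 1000) ^ Nb)⁻¹ * (1 + (Q : ℝ) / (1000 - R) + ((Q : ℝ) / (1000 - R)) ^ 2)) =
      ((Nb : ℝ) ^ 2 * (1000 + R) * G * 1000 ^ Nb *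
        ((1000 - R) ^ 2 + Q * (1000 - R) + Q ^ 2) * 1000 ^ k) /
      (1000 * Q ^ Nb * (1000 - R) ^ 2 * R ^ k) := by
    rw [div_pow, div_pow]
    field_simp
  rw [e2, div_le_iff₀ (by positivity)]
  exact h2

end LLc

end Pool.Agent.H37.UM
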