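import Pool.Agent.H37.UM.Stmts

/-! # Module SSB -/

set_option autoImplicit false

namespace Pool.Agent.H37.UM

open PowerSeries Finset

namespace SSBm

/-- the function of one term -/
noncomputable def ff (t : ℝ) : ℝ := Real.log ((1 + t) / (1 - t))

theorem ff_nonneg {t : ℝ} (h0 : 0 ≤ t) (h1 : t < 1) : 0 ≤ ff t := by
  unfold ff
  apply Real.log_nonneg
  rw [le_div_iff₀ (by linarith)]
  linarith

theorem ff_mono {t u : ℝ} (h0 : 0 ≤ t) (htu : t ≤ u) (h1 : u < 1) : ff t ≤ ff u := by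
  unfold ff
  have h2 : 0 < 1 - t := by linarith
  have h3 : 0 < 1 - u := by linarith
  have h4 : 0 ≤ 1 + u := by linarith
  apply Real.log_le_log (by positivity)
  gcongr

theorem hasSum_ff {t : ℝ} (h0 : 0 ≤ t) (h1 : t < 1) :
    HasSum (fun k : ℕ => 2 * (1 / (2 * (k : ℝ) + 1)) * t ^ (2 * k + 1)) (ff t) := by
  have h := Real.hasSum_log_sub_log_of_abs_lt_one (x := t) (by rw [abs_of_nonneg h0]; exact h1)
  unfold ff
  rw [Real.log_div (by linarith) (by linarith)]
  exact h

theorem hasSum_odd : HasSum (fun k : ℕ => 1 / (2 * (k : ℝ) + 1) ^ 2) (Real.pi ^ 2 / 8) := by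
  have h := hasSum_zeta_two
  have he : HasSum (fun k : ℕ => 1 / ((2 * k : ℕ) : ℝ) ^ 2) (1 / 4 * (Real.pi ^ 2 / 6)) := by
    have h0 := h.mul_left (1 / 4)
    have e : (fun k : ℕ => 1 / ((2 * k : ℕ) : ℝ) ^ 2) =
        fun k : ℕ => 1 / 4 * (1 / (k : ℝ) ^ 2) := by
      funext k
      push_cast
      rw [mul_pow, one_div_mul_one_div]
      norm_num
    rw [e]
    exact h0
  have hs : Summable (fun k : ℕ => 1 / ((2 * k + 1 : ℕ) : ℝ) ^ 2) := by
    have := h.summable.comp_injective (i := fun k : ℕ => 2 * k + 1) (by intro a b hab; simpa using hab)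
    exact this
  have h2 := HasSum.even_add_odd (f := fun n : ℕ => 1 / (n : ℝ) ^ 2) he hs.hasSum
  have h3 := h2.unique h
  have h4 : ∑' k : ℕ, 1 / ((2 * k + 1 : ℕ) : ℝ) ^ 2 = Real.pi ^ 2 / 8 := by linarith
  have h5 := hs.hasSum
  rw [h4] at h5
  convert h5 using 2 with k
  push_cast
  ring

/-- the sum over odd exponents -/
theorem odd_sum (N : ℕ) (r : ℝ) (h0 : 0 < r) (h1 : r < 1) :
    ∑ j ∈ range N, ff (r ^ (2 * j + 1)) ≤ Real.pi ^ 2 / (8 * Real.log (1 / r)) := by
  have hs : 0 < Real.log (1 / r) := Real.log_pos (by rw [one_div]; exact (one_lt_inv₀ h0).2 h1)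
  set s := Real.log (1 / r) with hsdef
  have hrs : r = Real.exp (-s) := by
    rw [hsdef, one_div, Real.log_inv, neg_neg, Real.exp_log h0]
  have hA : HasSum (fun k : ℕ => ∑ j ∈ range N,
      2 * (1 / (2 * (k : ℝ) + 1)) * (r ^ (2 * j + 1)) ^ (2 * k + 1))
      (∑ j ∈ range N, ff (r ^ (2 * j + 1))) := by
    apply hasSum_sum
    intro j _
    apply hasSum_ff (by positivity)
    exact pow_lt_one₀ h0.le h1 (by omega)
  have hB : HasSum (fun k : ℕ => 1 / s * (1 / (2 * (k : ℝ) + 1) ^ 2))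
      (1 / s * (Real.pi ^ 2 / 8)) := hasSum_odd.mul_left _
  have hle := hasSum_le (fun k => ?_) hA hB
  · refine hle.trans (le_of_eq ?_)
    field_simp
  · have hu : 0 < (2 * (k : ℝ) + 1) * s := by positivity
    set u := (2 * (k : ℝ) + 1) * s with hudef
    set x := r ^ (2 * k + 1) with hx
    have hxu : x = Real.exp (-u) := by
      rw [hx, hrs, ← Real.exp_nat_mul]
      congr 1
      rw [hudef]; push_cast; ring
    have hx0 : 0 < x := by positivity
    have hx1 : x < 1 := by rw [hxu, ← Real.exp_zero]; exact Real.exp_lt_exp.2 (by linarith)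
    have e1 : ∑ j ∈ range N, 2 * (1 / (2 * (k : ℝ) + 1)) * (r ^ (2 * j + 1)) ^ (2 * k + 1) =
        2 * (1 / (2 * (k : ℝ) + 1)) * (x * ∑ j ∈ range N, (x ^ 2) ^ j) := by
      rw [Finset.mul_sum, Finset.mul_sum]
      apply Finset.sum_congr rfl
      intro j _
      rw [← pow_mul, hx, ← pow_mul, ← pow_mul, ← pow_add]
      congr 2
      ring
    rw [e1]
    have hx2 : x ^ 2 < 1 := by nlinarith
    have h3 : ∑ j ∈ range N, (x ^ 2) ^ j ≤ (1 - x ^ 2)⁻¹ := by
      rw [← tsum_geometric_of_lt_one (by positivity) hx2]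
      exact Summable.sum_le_tsum _ (fun i _ => by positivity)
        (summable_geometric_of_lt_one (by positivity) hx2)
    have h4 : 2 * (x * (1 - x ^ 2)⁻¹) ≤ 1 / u := by
      have h5 : u ≤ Real.sinh u := Real.self_le_sinh_iff.2 hu.le
      have h6 : Real.sinh u = (x⁻¹ - x) / 2 := by
        rw [Real.sinh_eq, hxu, ← Real.exp_neg, neg_neg]
      have h7 : 2 * (x * (1 - x ^ 2)⁻¹) = 1 / Real.sinh u := by
        rw [h6]
        have : 1 - x ^ 2 ≠ 0 := by linarith
        field_simp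
      rw [h7]
      exact one_div_le_one_div_of_le hu h5
    calc 2 * (1 / (2 * (k : ℝ) + 1)) * (x * ∑ j ∈ range N, (x ^ 2) ^ j)
        ≤ 2 * (1 / (2 * (k : ℝ) + 1)) * (x * (1 - x ^ 2)⁻¹) := by gcongr
      _ = 1 / (2 * (k : ℝ) + 1) * (2 * (x * (1 - x ^ 2)⁻¹)) := by ring
      _ ≤ 1 / (2 * (k : ℝ) + 1) * (1 / u) := by gcongr
      _ = _ := by rw [hudef]; field_simp

theorem card_fib (hO : OPStmt) (N i : ℕ) (hN : 1 ≤ N) :
    (((Icc 1 N).filter (fun m => op m = i)).card : ℝ) ≤ Real.log N / Real.log 2 + 1 := by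
  have h1 : ((Icc 1 N).filter (fun m => op m = i)).card ≤ (range (Nat.log 2 N + 1)).card := by
    apply Finset.card_le_card_of_injOn (fun m => padicValNat 2 m)
    · intro m hm
      rw [Finset.mem_coe, Finset.mem_filter, Finset.mem_Icc] at hm
      rw [Finset.mem_coe, Finset.mem_range]
      have h2 := hO.1 m hm.1.1
      have h3 : 2 ^ padicValNat 2 m ≤ N := by
        calc 2 ^ padicValNat 2 m ≤ 2 ^ padicValNat 2 m * op m :=
              Nat.le_mul_of_pos_right _ (by omega)
          _ = m := h2.2.2.2.symm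
          _ ≤ N := hm.1.2
      have := Nat.le_log_of_pow_le (by norm_num) h3
      show padicValNat 2 m < Nat.log 2 N + 1
      omega
    · intro m hm m' hm' he
      rw [Finset.mem_coe, Finset.mem_filter, Finset.mem_Icc] at hm hm'
      have h2 := (hO.1 m hm.1.1).2.2.2
      have h3 := (hO.1 m' hm'.1.1).2.2.2
      simp only at he
      rw [hm.2, he] at h2
      rw [hm'.2] at h3
      exact h2.trans h3.symm
  rw [Finset.card_range] at h1
  have h2 : (((Icc 1 N).filter (fun m => op m = i)).card : ℝ) ≤ (Nat.log 2 N : ℝ) + 1 := by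
    exact_mod_cast h1
  have h3 := Real.natLog_le_logb N 2
  unfold Real.logb at h3
  have h4 : ((2 : ℕ) : ℝ) = 2 := by norm_num
  rw [h4] at h3
  linarith

theorem partA (hO : OPStmt) (N : ℕ) (r : ℝ) (hN : 1 ≤ N) (h0 : 0 < r) (h1 : r < 1) :
    SS N r ≤ (Real.log N / Real.log 2 + 1) * Real.pi ^ 2 / (8 * Real.log (1 / r)) := by
  have hff : ∀ i, 0 ≤ i → 0 ≤ ff (r ^ (2 * i + 1)) := fun i _ =>
    ff_nonneg (by positivity) (pow_lt_one₀ h0.le h1 (by omega))
  have hL : 0 ≤ Real.log N / Real.log 2 + 1 := by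
    have : 0 ≤ Real.log N := Real.log_nonneg (by exact_mod_cast hN)
    have : 0 < Real.log 2 := Real.log_pos (by norm_num)
    positivity
  have e1 : SS N r = ∑ y ∈ (range N).image (fun j => 2 * j + 1),
      ∑ m ∈ (Icc 1 N).filter (fun m => op m = y), ff (r ^ op m) := by
    unfold SS
    rw [Finset.sum_fiberwise_of_maps_to]
    · rfl
    · intro m hm
      rw [Finset.mem_Icc] at hm
      have h2 := hO.1 m hm.1
      obtain ⟨j, hj⟩ := h2.1
      rw [Finset.mem_image]
      exact ⟨j, Finset.mem_range.2 (by omega), hj.symm⟩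
  rw [e1, Finset.sum_image (by intro a _ b _ hab; simpa using hab)]
  have h3 : ∀ j ∈ range N, ∑ m ∈ (Icc 1 N).filter (fun m => op m = 2 * j + 1), ff (r ^ op m) ≤
      (Real.log N / Real.log 2 + 1) * ff (r ^ (2 * j + 1)) := by
    intro j _
    have h4 : ∑ m ∈ (Icc 1 N).filter (fun m => op m = 2 * j + 1), ff (r ^ op m) =
        (((Icc 1 N).filter (fun m => op m = 2 * j + 1)).card : ℝ) * ff (r ^ (2 * j + 1)) := by
      rw [← nsmul_eq_mul, ← Finset.sum_const]
      apply Finset.sum_congr rfl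
      intro m hm
      rw [(Finset.mem_filter.1 hm).2]
    rw [h4]
    exact mul_le_mul_of_nonneg_right (card_fib hO N _ hN) (hff j (Nat.zero_le _))
  calc _ ≤ _ := Finset.sum_le_sum h3
    _ = (Real.log N / Real.log 2 + 1) * ∑ j ∈ range N, ff (r ^ (2 * j + 1)) := by
      rw [Finset.mul_sum]
    _ ≤ (Real.log N / Real.log 2 + 1) * (Real.pi ^ 2 / (8 * Real.log (1 / r))) :=
      mul_le_mul_of_nonneg_left (odd_sum N r h0 h1) hL
    _ = _ := by ring

theorem sinh_le (y : ℝ) (hy : 0 ≤ y) : Real.sinh y ≤ y * Real.cosh y := by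
  have hd : ∀ x : ℝ, HasDerivAt (fun x => x * Real.cosh x - Real.sinh x) (x * Real.sinh x) x := by
    intro x
    have h := ((hasDerivAt_id x).mul (Real.hasDerivAt_cosh x)).sub (Real.hasDerivAt_sinh x)
    refine h.congr_deriv ?_
    simp
  have hm : MonotoneOn (fun x => x * Real.cosh x - Real.sinh x) (Set.Ici 0) := by
    apply monotoneOn_of_deriv_nonneg (convex_Ici 0)
    · exact fun x _ => (hd x).continuousAt.continuousWithinAt
    · exact fun x _ => (hd x).differentiableAt.differentiableWithinAt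
    · intro x hx
      rw [interior_Ici, Set.mem_Ioi] at hx
      rw [(hd x).deriv]
      have := Real.sinh_nonneg_iff.2 hx.le
      positivity
  have h := hm (Set.mem_Ici.2 le_rfl) (Set.mem_Ici.2 hy) hy
  simp only [Real.sinh_zero, zero_mul, sub_zero] at h
  linarith

theorem cosh_le (y : ℝ) (hy : 0 ≤ y) : y * Real.cosh y ≤ (1 + y ^ 2 / 3) * Real.sinh y := by
  have hd : ∀ x : ℝ, HasDerivAt (fun x => (1 + x ^ 2 / 3) * Real.sinh x - x * Real.cosh x)
      (x / 3 * (x * Real.cosh x - Real.sinh x)) x := by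
    intro x
    have h1 : HasDerivAt (fun x : ℝ => 1 + x ^ 2 / 3) (2 * x / 3) x := by
      have h := ((hasDerivAt_pow 2 x).div_const 3).const_add 1
      refine h.congr_deriv ?_
      norm_num
    have h := (h1.mul (Real.hasDerivAt_sinh x)).sub
      ((hasDerivAt_id x).mul (Real.hasDerivAt_cosh x))
    refine h.congr_deriv ?_
    simp only [id]
    ring
  have hm : MonotoneOn (fun x => (1 + x ^ 2 / 3) * Real.sinh x - x * Real.cosh x)
      (Set.Ici 0) := by
    apply monotoneOn_of_deriv_nonneg (convex_Ici 0)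
    · exact fun x _ => (hd x).continuousAt.continuousWithinAt
    · exact fun x _ => (hd x).differentiableAt.differentiableWithinAt
    · intro x hx
      rw [interior_Ici, Set.mem_Ioi] at hx
      rw [(hd x).deriv]
      have := sinh_le x hx.le
      have h2 : 0 ≤ x * Real.cosh x - Real.sinh x := by linarith
      positivity
  have h := hm (Set.mem_Ici.2 le_rfl) (Set.mem_Ici.2 hy) hy
  simp only [Real.sinh_zero, zero_mul, mul_zero, sub_zero] at h
  linarith

theorem ff_le (x : ℝ) (hx : 0 < x) : ff (Real.exp (-x)) ≤ Real.log (2 / x) + x ^ 2 / 12 := by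
  have he : Real.exp (-x) < 1 := by
    rw [← Real.exp_zero]; exact Real.exp_lt_exp.2 (by linarith)
  have h1 : 0 < 1 - Real.exp (-x) := by linarith
  have h2 : 0 < Real.exp (-x) := Real.exp_pos _
  have h3 : (1 + Real.exp (-x)) / (1 - Real.exp (-x)) ≤ 2 / x * Real.exp (x ^ 2 / 12) := by
    have h4 := cosh_le (x / 2) (by linarith)
    have h5 : (1 + (x / 2) ^ 2 / 3) ≤ Real.exp (x ^ 2 / 12) := by
      have := Real.add_one_le_exp (x ^ 2 / 12)
      nlinarith
    have hs : 0 < Real.sinh (x / 2) := Real.sinh_pos_iff.2 (by linarith)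
    have h6 : x / 2 * Real.cosh (x / 2) ≤ Real.exp (x ^ 2 / 12) * Real.sinh (x / 2) :=
      h4.trans (mul_le_mul_of_nonneg_right h5 hs.le)
    have e1 : Real.exp (-x) = Real.exp (-(x / 2)) * Real.exp (-(x / 2)) := by
      rw [← Real.exp_add]; congr 1; ring
    have e2 : Real.exp (x / 2) * Real.exp (-(x / 2)) = 1 := by
      rw [← Real.exp_add]; simp
    have e3 : 1 + Real.exp (-x) = 2 * Real.cosh (x / 2) * Real.exp (-(x / 2)) := by
      rw [Real.cosh_eq, e1]
      linear_combination -e2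
    have e4 : 1 - Real.exp (-x) = 2 * Real.sinh (x / 2) * Real.exp (-(x / 2)) := by
      rw [Real.sinh_eq, e1]
      linear_combination -e2
    have hp : 0 < Real.exp (-(x / 2)) := Real.exp_pos _
    rw [e3, e4, div_le_iff₀ (by positivity)]
    have h7 : Real.cosh (x / 2) ≤ 2 / x * (Real.exp (x ^ 2 / 12) * Real.sinh (x / 2)) := by
      calc Real.cosh (x / 2) = 2 / x * (x / 2 * Real.cosh (x / 2)) := by field_simp
        _ ≤ _ := mul_le_mul_of_nonneg_left h6 (by positivity)
    calc 2 * Real.cosh (x / 2) * Real.exp (-(x / 2))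
        ≤ 2 * (2 / x * (Real.exp (x ^ 2 / 12) * Real.sinh (x / 2))) * Real.exp (-(x / 2)) := by
          gcongr
      _ = _ := by ring
  unfold ff
  calc Real.log ((1 + Real.exp (-x)) / (1 - Real.exp (-x)))
      ≤ Real.log (2 / x * Real.exp (x ^ 2 / 12)) := Real.log_le_log (by positivity) h3
    _ = _ := by rw [Real.log_mul (by positivity) (Real.exp_pos _).ne', Real.log_exp]

theorem sum_log_op (hO : OPStmt) (N : ℕ) :
    ∑ m ∈ Icc 1 N, Real.log (op m) =
      Real.log (N.factorial) - padicValNat 2 N.factorial * Real.log 2 := by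
  induction N with
  | zero => simp
  | succ N ih =>
    rw [Finset.sum_Icc_succ_top (by omega), ih, Nat.factorial_succ]
    have : Fact (Nat.Prime 2) := ⟨Nat.prime_two⟩
    rw [padicValNat.mul (by omega) (Nat.factorial_ne_zero N)]
    have h := hO.1 (N + 1) (by omega)
    have h1 : (((N + 1 : ℕ)) : ℝ) = 2 ^ padicValNat 2 (N + 1) * (op (N + 1) : ℝ) := by
      exact_mod_cast h.2.2.2
    have hop : (0 : ℝ) < (op (N + 1) : ℝ) := by exact_mod_cast h.2.1
    have h2 : Real.log ((N + 1 : ℕ) : ℝ) = padicValNat 2 (N + 1) * Real.log 2 +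
        Real.log (op (N + 1)) := by
      rw [h1, Real.log_mul (by positivity) hop.ne', Real.log_pow]
    have hf : (N.factorial : ℝ) ≠ 0 := by exact_mod_cast Nat.factorial_ne_zero N
    have hn : ((N + 1 : ℕ) : ℝ) ≠ 0 := by positivity
    rw [Nat.cast_mul, Real.log_mul hn hf, h2]
    push_cast
    ring

theorem sum_log_ge (hO : OPStmt) (N : ℕ) (hN : 1 ≤ N) :
    N * Real.log N - N - N * Real.log 2 ≤ ∑ m ∈ Icc 1 N, Real.log (op m) := by
  rw [sum_log_op hO]
  have : Fact (Nat.Prime 2) := ⟨Nat.prime_two⟩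
  have h1 := sub_one_mul_padicValNat_factorial (p := 2) N
  have h2 : padicValNat 2 N.factorial ≤ N := by omega
  have hl2 : 0 < Real.log 2 := Real.log_pos (by norm_num)
  have h3 : (padicValNat 2 N.factorial : ℝ) * Real.log 2 ≤ N * Real.log 2 := by
    have : (padicValNat 2 N.factorial : ℝ) ≤ N := by exact_mod_cast h2
    gcongr
  have h4 : N * Real.log N - N ≤ Real.log (N.factorial) := by
    have h5 := Real.pow_div_factorial_le_exp (x := (N : ℝ)) (by positivity) N
    have hf : (0 : ℝ) < N.factorial := by exact_mod_cast Nat.factorial_pos N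
    have hn : (0 : ℝ) < N := by exact_mod_cast hN
    have h6 := Real.log_le_log (by positivity) h5
    rw [Real.log_exp, Real.log_div (by positivity) hf.ne', Real.log_pow] at h6
    linarith
  linarith

theorem partB (hO : OPStmt) (hS : SGStmt) (N : ℕ) (r : ℝ) (hN : 1 ≤ N) (h0 : 0 < r) (h1 : r < 1) :
    SS N r ≤ N * (Real.log (2 / (Real.log (1 / r) * N)) + 1 + Real.log 2) +
      Real.log (1 / r) ^ 2 / 12 * (4 / 21 * (N : ℝ) ^ 3 + (N : ℝ) ^ 2) := by
  have hs : 0 < Real.log (1 / r) := Real.log_pos (by rw [one_div]; exact (one_lt_inv₀ h0).2 h1)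
  set s := Real.log (1 / r) with hsdef
  have hrs : r = Real.exp (-s) := by
    rw [hsdef, one_div, Real.log_inv, neg_neg, Real.exp_log h0]
  have hNp : (0 : ℝ) < N := by exact_mod_cast hN
  have h2 : ∀ m ∈ Icc 1 N, ff (r ^ op m) ≤
      Real.log (2 / s) - Real.log (op m) + s ^ 2 / 12 * (op m : ℝ) ^ 2 := by
    intro m hm
    rw [Finset.mem_Icc] at hm
    have hop : (0 : ℝ) < (op m : ℝ) := by exact_mod_cast (hO.1 m hm.1).2.1
    have e1 : r ^ op m = Real.exp (-(s * op m)) := by
      rw [hrs, ← Real.exp_nat_mul]; congr 1; ring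
    rw [e1]
    have h3 := ff_le (s * op m) (by positivity)
    have e2 : Real.log (2 / (s * op m)) = Real.log (2 / s) - Real.log (op m) := by
      rw [← Real.log_div (by positivity) hop.ne', div_div]
    rw [e2] at h3
    calc _ ≤ _ := h3
      _ = _ := by ring
  have h3 : SS N r ≤ ∑ m ∈ Icc 1 N,
      (Real.log (2 / s) - Real.log (op m) + s ^ 2 / 12 * (op m : ℝ) ^ 2) :=
    Finset.sum_le_sum h2
  rw [Finset.sum_add_distrib, Finset.sum_sub_distrib, ← Finset.mul_sum, Finset.sum_const,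
    Nat.card_Icc, nsmul_eq_mul] at h3
  have h4 := sum_log_ge hO N hN
  have h5 := hS.2 N
  have h6 : s ^ 2 / 12 * ∑ m ∈ Icc 1 N, (op m : ℝ) ^ 2 ≤
      s ^ 2 / 12 * (4 / 21 * (N : ℝ) ^ 3 + (N : ℝ) ^ 2) := by gcongr
  have e3 : Real.log (2 / (s * N)) = Real.log (2 / s) - Real.log N := by
    rw [← Real.log_div (by positivity) hNp.ne', div_div]
  rw [e3]
  have e4 : ((N + 1 - 1 : ℕ) : ℝ) = N := by norm_num
  rw [e4] at h3
  nlinarith

end SSBm

theorem SSB_thm (hO : OPStmt) (hS : SGStmt) : SSBStmt := by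
  refine ⟨fun N r hN h0 h1 => SSBm.partA hO N r hN h0 h1,
    fun N r hN h0 h1 => SSBm.partB hO hS N r hN h0 h1, ?_, ?_⟩
  · intro N r r' h0 hrr h1
    apply Finset.sum_le_sum
    intro m hm
    rw [Finset.mem_Icc] at hm
    have h2 := (hO.1 m hm.1).2.1
    have h3 : 0 < r' := by linarith
    exact SSBm.ff_mono (by positivity) (pow_le_pow_left₀ h0.le hrr _)
      (pow_lt_one₀ h3.le h1 (by omega))
  · intro N r h0 h1
    apply Finset.sum_nonneg
    intro m hm
    rw [Finset.mem_Icc] at hm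
    have h2 := (hO.1 m hm.1).2.1
    exact SSBm.ff_nonneg (by positivity) (pow_lt_one₀ h0.le h1 (by omega))

end Pool.Agent.H37.UM
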